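import Pool.Agent.L7h71.UN.StmC

set_option autoImplicit false

/-!
# Project UN: CONV, a cellular structure has countably many younger structures
-/

namespace Pool.Agent.L7h23.UN.Cv

open Set Filter Function Pool.Agent.L7h71.UN

/-- A finite partial injection extends to a permutation. -/
theorem exists_perm_ext (S : Finset ℕ) (a : ℕ → ℕ) :
    InjOn a S → ∃ σ : Equiv.Perm ℕ, ∀ k ∈ S, σ k = a k := by
  classical
  induction S using Finset.induction_on with
  | empty => exact fun _ => ⟨1, by simp⟩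
  | insert k S hk ih =>
    intro ha
    obtain ⟨σ, hσ⟩ := ih (ha.mono (by simp))
    refine ⟨Equiv.swap (σ k) (a k) * σ, fun k' hk' => ?_⟩
    rw [Equiv.Perm.mul_apply]
    rcases Finset.mem_insert.1 hk' with rfl | hk''
    · exact Equiv.swap_apply_left _ _
    · have hne : k' ≠ k := fun h => hk (h ▸ hk'')
      rw [hσ k' hk'', Equiv.swap_apply_of_ne_of_ne]
      · rw [← hσ k' hk'']
        exact fun h => hne (σ.injective h)
      · exact fun h => hne (ha (Finset.mem_coe.2 hk')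
          (Finset.mem_coe.2 (Finset.mem_insert_self k S)) h)

variable {r d m : ℕ} {K : Type} {sz : Fin m → ℕ}

/-- The number of the cell. -/
def cn : Dom d m sz → ℕ := Sum.elim (fun _ => 0) fun w => w.2.1

/-- Renumber the cells in the order of appearance. -/
theorem normal (g : ℕ → Dom d m sz) (n : ℕ) :
    ∃ σ : Fin m → Equiv.Perm ℕ, ∀ x < n, ∀ i k j, g x = Sum.inr ⟨i, (k, j)⟩ → σ i k ≤ x := by
  classical
  have key : ∀ i : Fin m, ∃ σ : Equiv.Perm ℕ, ∀ x < n, ∀ k j, g x = Sum.inr ⟨i, (k, j)⟩ →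
      σ k ≤ x := by
    intro i
    let T : ℕ → Set ℕ := fun k => {x | x < n ∧ ∃ j, g x = Sum.inr ⟨i, (k, j)⟩}
    let S : Finset ℕ := ((Finset.range n).image fun x => cn (g x)).filter fun k => (T k).Nonempty
    have hS : ∀ k ∈ S, sInf (T k) ∈ T k := fun k hk => Nat.sInf_mem (Finset.mem_filter.1 hk).2
    have hinj : InjOn (fun k => sInf (T k)) S := by
      intro k hk k' hk' h
      obtain ⟨h1, j, h2⟩ := hS k (Finset.mem_coe.1 hk)
      obtain ⟨h3, j', h4⟩ := hS k' (Finset.mem_coe.1 hk')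
      have h5 : sInf (T k) = sInf (T k') := h
      rw [h5, h4] at h2
      have h6 := congrArg cn h2
      exact h6.symm
    obtain ⟨σ, hσ⟩ := exists_perm_ext S _ hinj
    refine ⟨σ, fun x hx k j hg => ?_⟩
    have hxT : x ∈ T k := ⟨hx, j, hg⟩
    have hkS : k ∈ S := by
      refine Finset.mem_filter.2 ⟨Finset.mem_image.2 ⟨x, Finset.mem_range.2 hx, ?_⟩, ⟨x, hxT⟩⟩
      rw [hg]
      rfl
    rw [hσ k hkS]
    exact Nat.sInf_le hxT
  choose σ hσ using key
  exact ⟨σ, fun x hx i k j h => hσ i x hx k j h⟩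

theorem act_inj (σ : Fin m → Equiv.Perm ℕ) : Injective (act (d := d) (sz := sz) σ) := by
  rintro (a | ⟨i, k, j⟩) (b | ⟨i', k', j'⟩) h
  · exact congrArg Sum.inl (Sum.inl_injective h)
  · simp [act] at h
  · simp [act] at h
  · have h1 := Sum.inr_injective h
    simp only [Sigma.mk.injEq] at h1
    obtain ⟨rfl, h2⟩ := h1
    have h3 := Prod.mk.inj (eq_of_heq h2)
    rw [(σ i).injective h3.1, h3.2]

/-- The points in the first cells. -/
theorem fin_first (x : ℕ) :
    {w : Dom d m sz | ∀ i k j, w = Sum.inr ⟨i, (k, j)⟩ → k ≤ x}.Finite := by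
  refine (finite_range fun w : Fin d ⊕ (Σ i : Fin m, Fin (x + 1) × Fin (sz i)) =>
    (Sum.map id (fun u => ⟨u.1, ((u.2.1 : ℕ), u.2.2)⟩) w : Dom d m sz)).subset ?_
  rintro (a | ⟨i, k, j⟩) h
  · exact ⟨Sum.inl a, rfl⟩
  · exact ⟨Sum.inr ⟨i, (⟨k, Nat.lt_succ_of_le (h i k j rfl)⟩, j)⟩, rfl⟩

/-- A younger structure embeds. -/
theorem exists_emb {M : St r K ℕ} (E : ℕ ≃ Dom d m sz)
    (hE : ∀ (σ : Fin m → Equiv.Perm ℕ) (x : Fin r → ℕ),
      M (fun i => E.symm (act σ (E (x i)))) = M x) {N : St r K ℕ} (hN : Loc M N) :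
    ∃ f : ℕ → Dom d m sz, Injective f ∧ ∀ x : Fin r → ℕ, M (fun i => E.symm (f (x i))) = N x := by
  classical
  choose e he1 he2 using fun n => hN (Finset.range n)
  choose σ hσ using fun n => normal (fun x => E (e n x)) n
  let h : ℕ → ℕ → Dom d m sz := fun n x => act (σ n) (E (e n x))
  let U : Ultrafilter ℕ := Filter.hyperfilter ℕ
  have hU : ∀ x : ℕ, ∀ᶠ n in U, x < n := by
    intro x
    have h1 : ∀ᶠ n in Filter.cofinite, x < n := by
      rw [Nat.cofinite_eq_atTop]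
      exact eventually_gt_atTop x
    exact Filter.hyperfilter_le_cofinite h1
  have hfirst : ∀ n x, x < n → h n x ∈ {w : Dom d m sz | ∀ i k j, w = Sum.inr ⟨i, (k, j)⟩ → k ≤ x} := by
    intro n x hx i k j hw
    rcases h1 : E (e n x) with a | ⟨i', k', j'⟩
    · simp only [h, h1, act, Sum.map_inl] at hw
      simp at hw
    · simp only [h, h1, act, Sum.map_inr] at hw
      have h2 := Sum.inr_injective hw
      simp only [Sigma.mk.injEq] at h2
      obtain ⟨rfl, h3⟩ := h2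
      have h4 := Prod.mk.inj (eq_of_heq h3)
      rw [← h4.1]
      exact hσ n x hx i' k' j' h1
  have hlim : ∀ x, ∃ v, ∀ᶠ n in U, h n x = v := by
    intro x
    have h1 : ∀ᶠ n in U, ∃ w ∈ {w : Dom d m sz | ∀ i k j, w = Sum.inr ⟨i, (k, j)⟩ → k ≤ x},
        h n x = w := (hU x).mono fun n hn => ⟨h n x, hfirst n x hn, rfl⟩
    obtain ⟨v, _, hv⟩ := (Ultrafilter.eventually_exists_mem_iff (fin_first x)).1 h1
    exact ⟨v, hv⟩
  choose f hf using hlim
  refine ⟨f, fun x y hxy => ?_, fun x => ?_⟩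
  · obtain ⟨n, h1, h2, h3, h4⟩ := ((hf x).and ((hf y).and ((hU x).and (hU y)))).exists
    have h5 : h n x = h n y := by rw [h1, h2, hxy]
    have h6 := E.injective (act_inj _ h5)
    exact he1 n (Finset.mem_coe.2 (Finset.mem_range.2 h3))
      (Finset.mem_coe.2 (Finset.mem_range.2 h4)) h6
  · have h1 : ∀ᶠ n in U, ∀ i, h n (x i) = f (x i) ∧ x i < n := by
      rw [eventually_all]
      exact fun i => (hf (x i)).and (hU (x i))
    obtain ⟨n, hn⟩ := h1.exists
    have h2 : (fun i => E.symm (f (x i))) = fun i => E.symm (act (σ n) (E (e n (x i)))) := by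
      funext i
      rw [← (hn i).1]
    rw [h2, hE (σ n) (fun i => e n (x i))]
    exact he2 n x fun i => Finset.mem_range.2 (hn i).2

/-- The code of a set of points. -/
noncomputable def code (A : Set (Dom d m sz)) :
    Set (Fin d) × ((Σ i : Fin m, Set (Fin (sz i))) → ℕ∞) :=
  ({a | Sum.inl a ∈ A}, fun p => Set.encard {k : ℕ | {j | Sum.inr ⟨p.1, (k, j)⟩ ∈ A} = p.2})

theorem equiv_of_encard {S S' : Set ℕ} (h : S.encard = S'.encard) : Nonempty (S ≃ S') := by
  have h1 : Cardinal.mk S = Cardinal.mk S' :=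
    (Cardinal.toENat_eq_iff_of_le_aleph0 (Cardinal.mk_le_aleph0) (Cardinal.mk_le_aleph0)).1 h
  exact Cardinal.eq.1 h1

/-- Sets with the same code are exchanged by a permutation of the cells. -/
theorem exists_act {A A' : Set (Dom d m sz)} (h : code A = code A') :
    ∃ σ : Fin m → Equiv.Perm ℕ, ∀ w, act σ w ∈ A' ↔ w ∈ A := by
  have h1 := congrArg Prod.fst h
  have h2 := congrArg Prod.snd h
  have key : ∀ i : Fin m, ∃ σ : Equiv.Perm ℕ, ∀ k,
      {j | (Sum.inr ⟨i, (σ k, j)⟩ : Dom d m sz) ∈ A'} = {j | Sum.inr ⟨i, (k, j)⟩ ∈ A} := by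
    intro i
    have h3 : ∀ s : Set (Fin (sz i)), Nonempty
        ({k : ℕ // {j | (Sum.inr ⟨i, (k, j)⟩ : Dom d m sz) ∈ A} = s} ≃
          {k : ℕ // {j | (Sum.inr ⟨i, (k, j)⟩ : Dom d m sz) ∈ A'} = s}) := fun s =>
      equiv_of_encard (congrFun h2 ⟨i, s⟩)
    exact ⟨Equiv.ofFiberEquiv fun s => (h3 s).some, fun k =>
      Equiv.ofFiberEquiv_map (fun s => (h3 s).some) k⟩
  choose σ hσ using key
  refine ⟨σ, ?_⟩
  rintro (a | ⟨i, k, j⟩)
  · have h3 : a ∈ {a | Sum.inl a ∈ A} ↔ a ∈ {a | (Sum.inl a : Dom d m sz) ∈ A'} := by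
      have h4 : {a | (Sum.inl a : Dom d m sz) ∈ A} = {a | (Sum.inl a : Dom d m sz) ∈ A'} := h1
      rw [h4]
    exact h3.symm
  · have h3 := hσ i k
    have h4 : j ∈ {j | (Sum.inr ⟨i, (σ i k, j)⟩ : Dom d m sz) ∈ A'} ↔
        j ∈ {j | (Sum.inr ⟨i, (k, j)⟩ : Dom d m sz) ∈ A} := by rw [h3]
    exact h4

/-- Embedded structures with the same code are isomorphic. -/
theorem iso_of_code {M : St r K ℕ} (E : ℕ ≃ Dom d m sz)
    (hE : ∀ (σ : Fin m → Equiv.Perm ℕ) (x : Fin r → ℕ),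
      M (fun i => E.symm (act σ (E (x i)))) = M x) {N N' : St r K ℕ}
    {f f' : ℕ → Dom d m sz} (hf : Injective f) (hf' : Injective f')
    (h : ∀ x : Fin r → ℕ, M (fun i => E.symm (f (x i))) = N x)
    (h' : ∀ x : Fin r → ℕ, M (fun i => E.symm (f' (x i))) = N' x)
    (hc : code (range f) = code (range f')) : Iso N N' := by
  obtain ⟨σ, hσ⟩ := exists_act hc
  have h1 : ∀ x, ∃ y, f' y = act σ (f x) := fun x => (hσ (f x)).2 ⟨x, rfl⟩
  choose g hg using h1
  have hbij : Bijective g := by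
    constructor
    · intro x y hxy
      have h2 : act σ (f x) = act σ (f y) := by rw [← hg, ← hg, hxy]
      exact hf (act_inj σ h2)
    · intro y
      -- the inverse permutation
      have h2 : act σ (act (fun i => (σ i)⁻¹) (f' y)) = f' y := by
        rcases f' y with a | ⟨i, k, j⟩
        · rfl
        · simp [act]
      have h3 : act (fun i => (σ i)⁻¹) (f' y) ∈ range f := by
        rw [← hσ, h2]
        exact ⟨y, rfl⟩
      obtain ⟨x, hx⟩ := h3
      refine ⟨x, hf' ?_⟩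
      rw [hg, hx, h2]
  refine ⟨Equiv.ofBijective g hbij, fun x => ?_⟩
  have h2 : N' (fun i => g (x i)) = N x := by
    rw [← h', ← h, ← hE σ fun i => E.symm (f (x i))]
    congr 1
    funext i
    simp only [hg, Equiv.apply_symm_apply]
  exact h2

end Pool.Agent.L7h23.UN.Cv

namespace Pool.Agent.L7h23.UN

open Set Filter Function Pool.Agent.L7h71.UN

theorem s_CONV : S_CONV := by
  classical
  intro r K M ⟨d, m, sz, E, hE⟩
  let P : Set (Fin d) × ((Σ i : Fin m, Set (Fin (sz i))) → ℕ∞) → St r K ℕ → Prop := fun c N =>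
    ∃ f : ℕ → Dom d m sz, Injective f ∧ (∀ x : Fin r → ℕ, M (fun i => E.symm (f (x i))) = N x) ∧
      Cv.code (range f) = c
  refine ⟨⋃ c, {N₀ | ∃ h : ∃ N, P c N, N₀ = h.choose}, ?_, fun N hN => ?_⟩
  · refine countable_iUnion fun c => Set.Subsingleton.countable ?_
    rintro N₀ ⟨h, rfl⟩ N₁ ⟨h', rfl⟩
    rfl
  · obtain ⟨f, hf, hfN⟩ := Cv.exists_emb E hE hN
    have h : ∃ N, P (Cv.code (range f)) N := ⟨N, f, hf, hfN, rfl⟩
    obtain ⟨f', hf', hfN', hc⟩ := h.choose_spec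
    exact ⟨h.choose, mem_iUnion.2 ⟨_, h, rfl⟩, Cv.iso_of_code E hE hf' hf hfN' hfN hc⟩

end Pool.Agent.L7h23.UN
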