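import Pool.Agent.L7h71.UN.Stm

set_option autoImplicit false

/-!
# Project UN: partial isomorphisms over named points, and tuples which are like a given one

Tools for STPB and STB2.
-/

namespace Pool.Agent.L7h23.UN

open Set Function Pool.Agent.L7h71.UN

variable {r : ℕ} {K Ω ι κ : Type}

/-- A map from `A` onto `B` which fixes `s` and preserves `N`. -/
structure Pres (N : St r K Ω) (s A B : Set Ω) (f : Ω → Ω) : Prop where
  bij : BijOn f A B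
  fix : ∀ w ∈ s, f w = w
  pres : ∀ x : Fin r → Ω, (∀ i, x i ∈ A) → N (f ∘ x) = N x

theorem Pres.symm {N : St r K Ω} {s A B : Set Ω} {f : Ω → Ω} (h : Pres N s A B f) (hs : s ⊆ A) :
    ∃ g, Pres N s B A g ∧ (∀ w ∈ A, g (f w) = w) ∧ ∀ w ∈ B, f (g w) = w := by
  classical
  let g : Ω → Ω := fun w => if h : ∃ a ∈ A, f a = w then h.choose else w
  have g1 : ∀ w ∈ A, g (f w) = w := by
    intro w hw
    have h1 : ∃ a ∈ A, f a = f w := ⟨w, hw, rfl⟩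
    simp only [g, dif_pos h1]
    exact h.bij.injOn h1.choose_spec.1 hw h1.choose_spec.2
  have g2 : ∀ w ∈ B, g w ∈ A ∧ f (g w) = w := by
    intro w hw
    have h1 : ∃ a ∈ A, f a = w := h.bij.surjOn hw
    simp only [g, dif_pos h1]
    exact h1.choose_spec
  refine ⟨g, ⟨?_, ?_, ?_⟩, g1, fun w hw => (g2 w hw).2⟩
  · refine ⟨fun w hw => (g2 w hw).1, ?_, ?_⟩
    · intro a ha b hb hab
      have hab' : g a = g b := hab
      rw [← (g2 a ha).2, ← (g2 b hb).2, hab']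
    · intro a ha
      exact ⟨f a, h.bij.mapsTo ha, g1 a ha⟩
  · intro w hw
    have h1 := g1 w (hs hw)
    rwa [h.fix w hw] at h1
  · intro x hx
    have h1 := h.pres (g ∘ x) fun i => (g2 _ (hx i)).1
    rw [← h1]
    congr 1
    funext i
    exact (g2 _ (hx i)).2

/-- `x` consists of points of `A` outside `s` and has the same relations to `s` as `x0`. -/
structure Lk (N : St r K Ω) (s A : Set Ω) (x0 x : ι → Ω) : Prop where
  inj : Injective x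
  mem : ∀ i, x i ∈ A
  out : ∀ i, x i ∉ s
  typ : ∀ ρ : Fin r → Ω ⊕ ι, (∀ i u, ρ i = Sum.inl u → u ∈ s) → N (sub ρ x) = N (sub ρ x0)

theorem comp_sub {s : Set Ω} {f : Ω → Ω} (hf : ∀ w ∈ s, f w = w) {ρ : Fin r → Ω ⊕ ι}
    (hρ : ∀ i u, ρ i = Sum.inl u → u ∈ s) (x : ι → Ω) : f ∘ sub ρ x = sub ρ (f ∘ x) := by
  funext i
  simp only [sub, comp_apply]
  rcases h : ρ i with u | j
  · simp only [Sum.elim_inl, id]
    exact hf u (hρ i u h)
  · simp only [Sum.elim_inr, comp_apply]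

theorem sub_mem {s A : Set Ω} (hs : s ⊆ A) {ρ : Fin r → Ω ⊕ ι}
    (hρ : ∀ i u, ρ i = Sum.inl u → u ∈ s) {x : ι → Ω} (hx : ∀ i, x i ∈ A) (i : Fin r) :
    sub ρ x i ∈ A := by
  simp only [sub]
  rcases h : ρ i with u | j
  · simp only [Sum.elim_inl, id]
    exact hs (hρ i u h)
  · simp only [Sum.elim_inr]
    exact hx j

theorem Pres.sub_eq {N : St r K Ω} {s A B : Set Ω} {f : Ω → Ω} (h : Pres N s A B f) (hs : s ⊆ A)
    {ρ : Fin r → Ω ⊕ ι} (hρ : ∀ i u, ρ i = Sum.inl u → u ∈ s) {x : ι → Ω} (hx : ∀ i, x i ∈ A) :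
    N (sub ρ (f ∘ x)) = N (sub ρ x) := by
  rw [← comp_sub h.fix hρ, h.pres _ (sub_mem hs hρ hx)]

theorem Pres.lk {N : St r K Ω} {s A B : Set Ω} {f : Ω → Ω} (h : Pres N s A B f) (hs : s ⊆ A)
    {x0 x : ι → Ω} (hx : Lk N s A x0 x) : Lk N s B x0 (f ∘ x) := by
  refine ⟨fun i j hij => hx.inj (h.bij.injOn (hx.mem i) (hx.mem j) hij),
    fun i => h.bij.mapsTo (hx.mem i), fun i hi => ?_, fun ρ hρ => ?_⟩
  · refine hx.out i ?_
    have h1 : f (f (x i)) = f (x i) := h.fix _ hi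
    have h2 := h.bij.injOn (hs hi) (hx.mem i) h1
    rwa [← h2]
  · rw [h.sub_eq hs hρ hx.mem, hx.typ ρ hρ]

/-- Substitution of the second group of variables. -/
def psY (τ : Fin r → Ω ⊕ (ι ⊕ κ)) (y : κ → Ω) : Fin r → Ω ⊕ ι :=
  fun i => Sum.elim Sum.inl (Sum.elim Sum.inr (Sum.inl ∘ y)) (τ i)

/-- Substitution of the first group of variables. -/
def psX (τ : Fin r → Ω ⊕ (ι ⊕ κ)) (x : ι → Ω) : Fin r → Ω ⊕ κ :=
  fun i => Sum.elim Sum.inl (Sum.elim (Sum.inl ∘ x) Sum.inr) (τ i)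

theorem sub_psY (τ : Fin r → Ω ⊕ (ι ⊕ κ)) (x : ι → Ω) (y : κ → Ω) :
    sub (psY τ y) x = sub τ (Sum.elim x y) := by
  funext i
  simp only [sub, psY]
  rcases τ i with u | j | k <;> rfl

theorem sub_psX (τ : Fin r → Ω ⊕ (ι ⊕ κ)) (x : ι → Ω) (y : κ → Ω) :
    sub (psX τ x) y = sub τ (Sum.elim x y) := by
  funext i
  simp only [sub, psX]
  rcases τ i with u | j | k <;> rfl

theorem psY_mem {s : Set Ω} {τ : Fin r → Ω ⊕ (ι ⊕ κ)} (hτ : ∀ i u, τ i = Sum.inl u → u ∈ s)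
    {y : κ → Ω} (hy : ∀ k, y k ∈ s) : ∀ i u, psY τ y i = Sum.inl u → u ∈ s := by
  intro i u h
  simp only [psY] at h
  rcases h1 : τ i with v | j | k
  · rw [h1] at h
    simp only [Sum.elim_inl] at h
    rw [← Sum.inl_injective h]
    exact hτ i v h1
  · rw [h1] at h
    simp at h
  · rw [h1] at h
    simp only [Sum.elim_inr, comp_apply] at h
    rw [← Sum.inl_injective h]
    exact hy k

theorem psX_mem {s : Set Ω} {τ : Fin r → Ω ⊕ (ι ⊕ κ)} (hτ : ∀ i u, τ i = Sum.inl u → u ∈ s)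
    {x : ι → Ω} (hx : ∀ k, x k ∈ s) : ∀ i u, psX τ x i = Sum.inl u → u ∈ s := by
  intro i u h
  simp only [psX] at h
  rcases h1 : τ i with v | j | k
  · rw [h1] at h
    simp only [Sum.elim_inl] at h
    rw [← Sum.inl_injective h]
    exact hτ i v h1
  · rw [h1] at h
    simp only [Sum.elim_inr, Sum.elim_inl, comp_apply] at h
    rw [← Sum.inl_injective h]
    exact hx j
  · rw [h1] at h
    simp at h

theorem Lk.left {N : St r K Ω} {s A : Set Ω} {x0 x : ι → Ω} (h : Lk N s A x0 x)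
    {τ : Fin r → Ω ⊕ (ι ⊕ κ)} (hτ : ∀ i u, τ i = Sum.inl u → u ∈ s) {y : κ → Ω}
    (hy : ∀ k, y k ∈ s) : N (sub τ (Sum.elim x y)) = N (sub τ (Sum.elim x0 y)) := by
  rw [← sub_psY, ← sub_psY]
  exact h.typ _ (psY_mem hτ hy)

theorem Lk.right {N : St r K Ω} {s A : Set Ω} {y0 y : κ → Ω} (h : Lk N s A y0 y)
    {τ : Fin r → Ω ⊕ (ι ⊕ κ)} (hτ : ∀ i u, τ i = Sum.inl u → u ∈ s) {x : ι → Ω}
    (hx : ∀ k, x k ∈ s) : N (sub τ (Sum.elim x y)) = N (sub τ (Sum.elim x y0)) := by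
  rw [← sub_psX, ← sub_psX]
  exact h.typ _ (psX_mem hτ hx)

theorem Pres.sub_eq2 {N : St r K Ω} {s A B : Set Ω} {f : Ω → Ω} (h : Pres N s A B f) (hs : s ⊆ A)
    {τ : Fin r → Ω ⊕ (ι ⊕ κ)} (hτ : ∀ i u, τ i = Sum.inl u → u ∈ s) {x : ι → Ω} {y : κ → Ω}
    (hx : ∀ i, x i ∈ A) (hy : ∀ i, y i ∈ A) :
    N (sub τ (Sum.elim (f ∘ x) (f ∘ y))) = N (sub τ (Sum.elim x y)) := by
  have h1 : ∀ u, Sum.elim x y u ∈ A := by
    rintro (i | k)
    · exact hx i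
    · exact hy k
  rw [← h.sub_eq hs hτ h1]
  congr 2
  funext u
  rcases u with i | k <;> rfl

/-! ### classes modulo finite differences -/

/-- The tuples in `A` like `y0` which are linked to `x`. -/
def Dl (N : St r K Ω) (s A : Set Ω) (τ : Fin r → Ω ⊕ (ι ⊕ κ)) (y0 : κ → Ω) (β : K) (x : ι → Ω) :
    Set (κ → Ω) := {y | Lk N s A y0 y ∧ N (sub τ (Sum.elim x y)) = β}

/-- The tuples in `A` like `x0` whose set `Dl` is up to a finite set the same as that of `x`. -/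
def Cls (N : St r K Ω) (s A : Set Ω) (τ : Fin r → Ω ⊕ (ι ⊕ κ)) (x0 : ι → Ω) (y0 : κ → Ω) (β : K)
    (x : ι → Ω) : Set (ι → Ω) :=
  {x' | Lk N s A x0 x' ∧ (symmDiff (Dl N s A τ y0 β x) (Dl N s A τ y0 β x')).Finite}

theorem Pres.mem_dl {N : St r K Ω} {s A B : Set Ω} {f g : Ω → Ω} (h : Pres N s A B f)
    (hg : Pres N s B A g) (hfg : ∀ w ∈ B, f (g w) = w) (hs : s ⊆ A) (hs' : s ⊆ B)
    {τ : Fin r → Ω ⊕ (ι ⊕ κ)} (hτ : ∀ i u, τ i = Sum.inl u → u ∈ s) {y0 : κ → Ω} {β : K}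
    {x : ι → Ω} (hx : ∀ i, x i ∈ A) {y : κ → Ω} (hy : ∀ k, y k ∈ B) :
    y ∈ Dl N s B τ y0 β (f ∘ x) ↔ g ∘ y ∈ Dl N s A τ y0 β x := by
  have h1 : f ∘ (g ∘ y) = y := funext fun k => hfg _ (hy k)
  have h2 : N (sub τ (Sum.elim (f ∘ x) y)) = N (sub τ (Sum.elim x (g ∘ y))) := by
    have h0 := h.sub_eq2 hs hτ hx (y := g ∘ y) (fun k => hg.bij.mapsTo (hy k))
    rw [← h0, h1]
  constructor
  · rintro ⟨h3, h4⟩
    exact ⟨hg.lk hs' h3, by rw [← h2, h4]⟩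
  · rintro ⟨h3, h4⟩
    refine ⟨?_, by rw [h2, h4]⟩
    have h5 := h.lk hs h3
    rwa [h1] at h5

theorem Pres.mem_cls {N : St r K Ω} {s A B : Set Ω} {f g : Ω → Ω} (h : Pres N s A B f)
    (hg : Pres N s B A g) (hfg : ∀ w ∈ B, f (g w) = w) (hs : s ⊆ A) (hs' : s ⊆ B)
    {τ : Fin r → Ω ⊕ (ι ⊕ κ)} (hτ : ∀ i u, τ i = Sum.inl u → u ∈ s) {x0 : ι → Ω} {y0 : κ → Ω}
    {β : K} {x x' : ι → Ω} (hx : ∀ i, x i ∈ A) (hx' : x' ∈ Cls N s A τ x0 y0 β x) :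
    f ∘ x' ∈ Cls N s B τ x0 y0 β (f ∘ x) := by
  refine ⟨h.lk hs hx'.1, ?_⟩
  refine (hx'.2.image fun y => f ∘ y).subset ?_
  intro y hy
  have hyB : ∀ k, y k ∈ B := by
    rcases hy with hy | hy
    · exact hy.1.1.mem
    · exact hy.1.1.mem
  refine ⟨g ∘ y, ?_, funext fun k => hfg _ (hyB k)⟩
  rw [mem_symmDiff] at hy ⊢
  rwa [h.mem_dl hg hfg hs hs' hτ hx hyB, h.mem_dl hg hfg hs hs' hτ hx'.1.mem hyB] at hy

theorem Pres.ncard_cls {N : St r K Ω} {s A B : Set Ω} {f : Ω → Ω} (h : Pres N s A B f)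
    (hs : s ⊆ A) (hs' : s ⊆ B)
    {τ : Fin r → Ω ⊕ (ι ⊕ κ)} (hτ : ∀ i u, τ i = Sum.inl u → u ∈ s) {x0 : ι → Ω} {y0 : κ → Ω}
    {β : K} {x : ι → Ω} (hx : ∀ i, x i ∈ A) :
    (Cls N s B τ x0 y0 β (f ∘ x)).ncard = (Cls N s A τ x0 y0 β x).ncard := by
  obtain ⟨g, hg, hgf, hfg⟩ := h.symm hs
  have h1 : (fun x' => f ∘ x') '' Cls N s A τ x0 y0 β x = Cls N s B τ x0 y0 β (f ∘ x) := by
    apply Subset.antisymm
    · rintro _ ⟨x', hx', rfl⟩
      exact h.mem_cls hg hfg hs hs' hτ hx hx'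
    · intro x' hx'
      have h2 := hg.mem_cls h hgf hs' hs hτ (x := f ∘ x) (fun i => h.bij.mapsTo (hx i)) hx'
      have h3 : g ∘ (f ∘ x) = x := funext fun i => hgf _ (hx i)
      rw [h3] at h2
      exact ⟨g ∘ x', h2, funext fun i => hfg _ (hx'.1.mem i)⟩
  rw [← h1]
  refine ncard_image_of_injOn ?_
  intro u hu v hv huv
  funext i
  exact h.bij.injOn (hu.1.mem i) (hv.1.mem i) (congrFun huv i)

end Pool.Agent.L7h23.UN
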