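import Pool.Agent.L7h23.UN.Stpb

set_option autoImplicit false

/-!
# Project UN: STB2, decoding of a star configuration
-/

namespace Pool.Agent.L7h23.UN.Sb

open Set Function Pool.Agent.L7h71.UN Pool.Agent.L7h23.UN

variable {r : ℕ} {K V ι κ ι' Ω : Type}

/-! ### pairwise disjoint linked tuples -/

/-- There are `n` pairwise disjoint tuples in `A` like `y0` which are linked to `x`. -/
def Dg (N : St r K Ω) (s A : Set Ω) (τ : Fin r → Ω ⊕ (ι ⊕ κ)) (y0 : κ → Ω) (α : K) (n : ℕ)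
    (x : ι → Ω) : Prop :=
  ∃ Y : Fin n → κ → Ω, (∀ a, Lk N s A y0 (Y a) ∧ N (sub τ (Sum.elim x (Y a))) = α) ∧
    ∀ a b, a ≠ b → ∀ j j', Y a j ≠ Y b j'

theorem Dg.mono {N : St r K Ω} {s A : Set Ω} {τ : Fin r → Ω ⊕ (ι ⊕ κ)} {y0 : κ → Ω} {α : K}
    {n m : ℕ} {x : ι → Ω} (h : Dg N s A τ y0 α n x) (hmn : m ≤ n) : Dg N s A τ y0 α m x := by
  obtain ⟨Y, h1, h2⟩ := h
  exact ⟨fun a => Y (Fin.castLE hmn a), fun a => h1 _,
    fun a b hab j j' => h2 _ _ (fun e => hab (Fin.castLE_injective hmn e)) j j'⟩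

theorem Dg.map {N : St r K Ω} {s A B : Set Ω} {f : Ω → Ω} {τ : Fin r → Ω ⊕ (ι ⊕ κ)} {y0 : κ → Ω}
    {α : K} {n : ℕ} {x : ι → Ω} (hP : Pres N s A B f) (hs : s ⊆ A)
    (hτ : ∀ i u, τ i = Sum.inl u → u ∈ s) (hx : ∀ i, x i ∈ A) (h : Dg N s A τ y0 α n x) :
    Dg N s B τ y0 α n (f ∘ x) := by
  obtain ⟨Y, h1, h2⟩ := h
  refine ⟨fun a => f ∘ Y a, fun a => ⟨hP.lk hs (h1 a).1, ?_⟩, fun a b hab j j' h3 => ?_⟩
  · rw [hP.sub_eq2 hs hτ hx (h1 a).1.mem]
    exact (h1 a).2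
  · exact h2 a b hab j j' (hP.bij.injOn ((h1 a).1.mem j) ((h1 b).1.mem j') h3)

theorem dg_iff {N : St r K Ω} {s A B : Set Ω} {f : Ω → Ω} {τ : Fin r → Ω ⊕ (ι ⊕ κ)} {y0 : κ → Ω}
    {α : K} {n : ℕ} {x : ι → Ω} (hP : Pres N s A B f) (hs : s ⊆ A) (hs' : s ⊆ B)
    (hτ : ∀ i u, τ i = Sum.inl u → u ∈ s) (hx : ∀ i, x i ∈ A) :
    Dg N s B τ y0 α n (f ∘ x) ↔ Dg N s A τ y0 α n x := by
  refine ⟨fun h => ?_, fun h => h.map hP hs hτ hx⟩
  obtain ⟨g, hg, hgf, hfg⟩ := hP.symm hs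
  have h1 := h.map hg hs' hτ (x := f ∘ x) fun i => hP.bij.mapsTo (hx i)
  have h2 : g ∘ (f ∘ x) = x := funext fun i => hgf _ (hx i)
  rwa [h2] at h1

theorem disj_le {n : ℕ} {Y : Fin n → κ → Ω} (hY : ∀ a b, a ≠ b → ∀ j j', Y a j ≠ Y b j')
    {S : Set Ω} (hS : S.Finite) (h : ∀ a, ∃ j, Y a j ∈ S) : n ≤ S.ncard := by
  choose j hj using h
  have : Finite S := hS
  have h1 : Injective fun a : Fin n => (⟨Y a (j a), hj a⟩ : S) := by
    intro a b hab
    by_contra hne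
    exact hY a b hne _ _ (congrArg Subtype.val hab)
  have h2 := Nat.card_le_card_of_injective _ h1
  rwa [Nat.card_eq_fintype_card, Fintype.card_fin, Nat.card_coe_set_eq] at h2

/-! ### numbers -/

/-- The chosen stars. -/
def E (c : ℕ → Bool) (e : ℕ) : Prop := e % 2 = (c (e / 2)).toNat

/-- Lower bounds for the degrees. -/
def Nn (p q : ℕ) : ℕ → ℕ
  | 0 => p * (p + q) + 1
  | e + 1 => p + q * (p + q + q * Nn p q e) + 1

/-- The numbers of leaves. -/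
def LL (p q e : ℕ) : ℕ := p + q + q * Nn p q e

theorem Nn_succ (p q e : ℕ) : Nn p q (e + 1) = p + q * LL p q e + 1 := rfl

theorem le_LL {p q : ℕ} (hq : 0 < q) (e : ℕ) : Nn p q e ≤ LL p q e := by
  have h1 : Nn p q e ≤ q * Nn p q e := Nat.le_mul_of_pos_left _ hq
  simp only [LL]
  omega

theorem Nn_mono {p q : ℕ} (hq : 0 < q) : StrictMono (Nn p q) := by
  refine strictMono_nat_of_lt_succ fun e => ?_
  have h1 := le_LL (p := p) hq e
  have h2 : LL p q e ≤ q * LL p q e := Nat.le_mul_of_pos_left _ hq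
  rw [Nn_succ]
  omega

theorem hi_lt {p q : ℕ} (hq : 0 < q) {e e' : ℕ} (h : e < e') : p + q * LL p q e < Nn p q e' := by
  have h1 : Nn p q (e + 1) ≤ Nn p q e' := (Nn_mono hq).monotone h
  rw [Nn_succ] at h1
  omega

theorem lo_le {p q : ℕ} (hq : 0 < q) (e : ℕ) : p * (p + q) + 1 ≤ Nn p q e :=
  (Nn_mono hq).monotone (Nat.zero_le e)

/-! ### the sets -/

/-- The substructures. -/
def AA (τ : Fin r → V ⊕ (ι ⊕ κ)) (c : ℕ → Bool) : Set (V ⊕ ℕ × (ι ⊕ ℕ × κ)) :=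
  {w | w ∈ Nam τ ∨ ∃ e, E c e ∧ ((∃ i, w = Sum.inr (Nat.card ι + 1 + e, Sum.inl i)) ∨
    ∃ l k, l < LL (Nat.card ι) (Nat.card κ) e ∧ w = Sum.inr (Nat.card ι + 1 + e, Sum.inr (l, k)))}

theorem nam_sub (τ : Fin r → V ⊕ (ι ⊕ κ)) (c : ℕ → Bool) : Nam τ ⊆ AA τ c := fun _ h => Or.inl h

theorem nam_finite [Finite ι] [Finite κ] (τ : Fin r → V ⊕ (ι ⊕ κ)) : (Nam τ).Finite := by
  by_cases hX : Nonempty (ι ⊕ κ)
  · obtain ⟨u0⟩ := hX
    refine ((finite_range fun i : Fin r =>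
      (Sum.elim Sum.inl (fun _ => Sum.inr (0, Sum.elim Sum.inl (fun k => Sum.inr (0, k)) u0))
        (τ i) : V ⊕ ℕ × (ι ⊕ ℕ × κ))).union
      ((finite_range fun u : Fin (Nat.card ι + 1) × ι =>
        (Sum.inr ((u.1 : ℕ), Sum.inl u.2) : V ⊕ ℕ × (ι ⊕ ℕ × κ))).union
      (finite_range fun u : Fin (Nat.card ι + 1) × (Fin (Nat.card ι + Nat.card κ) × κ) =>
        (Sum.inr ((u.1 : ℕ), Sum.inr ((u.2.1 : ℕ), u.2.2)) : V ⊕ ℕ × (ι ⊕ ℕ × κ))))).subset ?_
    rintro w (⟨i, v, h1, rfl⟩ | ⟨t, i, h1, rfl⟩ | ⟨t, l, k, h1, h2, rfl⟩)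
    · refine Or.inl ⟨i, ?_⟩
      simp only [h1, Sum.elim_inl]
    · exact Or.inr (Or.inl ⟨(⟨t, h1⟩, i), rfl⟩)
    · exact Or.inr (Or.inr ⟨(⟨t, h1⟩, (⟨l, h2⟩, k)), rfl⟩)
  · have h0 : ∀ u : ι ⊕ κ, False := fun u => hX ⟨u⟩
    have hv0 : ∀ i : Fin r, ∃ v, τ i = Sum.inl v := by
      intro i
      rcases h : τ i with v | u
      · exact ⟨v, rfl⟩
      · exact (h0 u).elim
    choose v hv using hv0
    refine (finite_range fun i : Fin r => (Sum.inl (v i) : V ⊕ ℕ × (ι ⊕ ℕ × κ))).subset ?_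
    rintro w (⟨i, v', h1, rfl⟩ | ⟨t, i, h1, rfl⟩ | ⟨t, l, k, h1, h2, rfl⟩)
    · refine ⟨i, ?_⟩
      have h2 := hv i
      rw [h1] at h2
      simp only []
      rw [Sum.inl_injective h2]
    · exact (h0 (Sum.inl i)).elim
    · exact (h0 (Sum.inr k)).elim

theorem tm_mem (τ : Fin r → V ⊕ (ι ⊕ κ)) : ∀ i u, tm τ i = Sum.inl u → u ∈ Nam τ := by
  intro i u h
  simp only [tm] at h
  rcases h1 : τ i with v | e
  · rw [h1] at h
    simp only [Sum.map_inl] at h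
    exact Or.inl ⟨i, v, h1, (Sum.inl_injective h).symm⟩
  · rw [h1] at h
    simp at h

theorem far_out (τ : Fin r → V ⊕ (ι ⊕ κ)) {w : ℕ × (ι ⊕ ℕ × κ)} (hw : Nat.card ι + 1 ≤ w.1) :
    Sum.inr w ∉ Nam τ := by
  rintro (⟨i, v, h1, h2⟩ | ⟨t, i, h1, h2⟩ | ⟨t, l, k, h1, h2, h3⟩)
  · simp at h2
  · rw [Sum.inr_injective h2] at hw
    simp only [] at hw
    omega
  · rw [Sum.inr_injective h3] at hw
    simp only [] at hw
    omega

theorem clopen_aa (τ : Fin r → V ⊕ (ι ⊕ κ)) (w : V ⊕ ℕ × (ι ⊕ ℕ × κ)) :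
    IsClopen {c | w ∈ AA τ c} := by
  have key : ∀ (k : ℕ) (Q : Bool → Prop), (∀ c, w ∈ AA τ c ↔ Q (c k)) →
      IsClopen {c | w ∈ AA τ c} := by
    intro k Q h
    have h1 : {c | w ∈ AA τ c} = (fun c : ℕ → Bool => c k) ⁻¹' {b | Q b} := by
      ext c
      exact h c
    rw [h1]
    exact (isClopen_discrete _).preimage (continuous_apply k)
  rcases w with v | ⟨t, u⟩
  · refine key 0 (fun _ => Sum.inl v ∈ Nam τ) fun c => ⟨?_, Or.inl⟩
    rintro (h | ⟨e, h1, ⟨i, h2⟩ | ⟨l, k, h3, h2⟩⟩)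
    · exact h
    · simp at h2
    · simp at h2
  · let e := t - (Nat.card ι + 1)
    refine key (e / 2) (fun b => Sum.inr (t, u) ∈ Nam τ ∨ e % 2 = b.toNat ∧
      t = Nat.card ι + 1 + e ∧ ((∃ i, u = Sum.inl i) ∨
        ∃ l k, l < LL (Nat.card ι) (Nat.card κ) e ∧ u = Sum.inr (l, k))) fun c => ?_
    constructor
    · rintro (h | ⟨e', h1, h2⟩)
      · exact Or.inl h
      · have h3 : t = Nat.card ι + 1 + e' := by
          rcases h2 with ⟨i, h2⟩ | ⟨l, k, h3, h2⟩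
          · exact (Prod.mk.inj (Sum.inr_injective h2)).1
          · exact (Prod.mk.inj (Sum.inr_injective h2)).1
        have h4 : e' = e := by
          simp only [e]
          omega
        subst h4
        refine Or.inr ⟨h1, h3, ?_⟩
        rcases h2 with ⟨i, h2⟩ | ⟨l, k, h3, h2⟩
        · exact Or.inl ⟨i, (Prod.mk.inj (Sum.inr_injective h2)).2⟩
        · exact Or.inr ⟨l, k, h3, (Prod.mk.inj (Sum.inr_injective h2)).2⟩
    · rintro (h | ⟨h1, h2, h3⟩)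
      · exact Or.inl h
      · refine Or.inr ⟨e, h1, ?_⟩
        rcases h3 with ⟨i, rfl⟩ | ⟨l, k, h3, rfl⟩
        · exact Or.inl ⟨i, by rw [← h2]⟩
        · exact Or.inr ⟨l, k, h3, by rw [← h2]⟩

/-! ### the configuration -/

variable {W : St r K (V ⊕ ℕ × (ι ⊕ ℕ × κ))} {τ : Fin r → V ⊕ (ι ⊕ κ)} {α γ : K}

theorem inv_typ (hW : StarConf W τ α γ) {σ : Equiv.Perm ℕ} {π : ℕ → Equiv.Perm ℕ}
    (hσ : ∀ t, t < Nat.card ι + 1 → σ t = t) (hπ : ∀ t, t < Nat.card ι + 1 → π t = 1)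
    {ρ : Fin r → (V ⊕ ℕ × (ι ⊕ ℕ × κ)) ⊕ ι'} (hρ : ∀ i u, ρ i = Sum.inl u → u ∈ Nam τ)
    (x : ι' → ℕ × (ι ⊕ ℕ × κ)) :
    W (sub ρ fun i => Sum.inr (sact σ π (x i))) = W (sub ρ fun i => Sum.inr (x i)) := by
  rw [← hW.inv σ π (sub ρ fun i => Sum.inr (x i))]
  congr 1
  funext i
  simp only [sub, comp_apply]
  rcases h : ρ i with u | j
  · simp only [Sum.elim_inl, id]
    rcases hρ i u h with ⟨i, v, h1, rfl⟩ | ⟨t, i, h1, rfl⟩ | ⟨t, l, k, h1, h2, rfl⟩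
    · rfl
    · simp only [Sum.map_inr, sact, Sum.map_inl, id, hσ t h1]
    · simp only [Sum.map_inr, sact, hσ t h1, hπ t h1, Equiv.Perm.coe_one, id]
  · simp only [Sum.elim_inr, Sum.map_inr]

/-- The centre of the star `t`. -/
def ce (V : Type) {ι κ : Type} (t : ℕ) : ι → V ⊕ ℕ × (ι ⊕ ℕ × κ) := fun i => Sum.inr (t, Sum.inl i)

/-- A leaf. -/
def le (V : Type) {ι κ : Type} (t l : ℕ) : κ → V ⊕ ℕ × (ι ⊕ ℕ × κ) :=
  fun k => Sum.inr (t, Sum.inr (l, k))

theorem ce_typ (hW : StarConf W τ α γ) {t t' : ℕ} (ht : Nat.card ι + 1 ≤ t)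
    (ht' : Nat.card ι + 1 ≤ t') {ρ : Fin r → (V ⊕ ℕ × (ι ⊕ ℕ × κ)) ⊕ ι}
    (hρ : ∀ i u, ρ i = Sum.inl u → u ∈ Nam τ) : W (sub ρ (ce V t)) = W (sub ρ (ce V t')) := by
  have h0 := inv_typ hW (σ := Equiv.swap t t') (π := fun _ => 1) (fun u hu =>
    Equiv.swap_apply_of_ne_of_ne (by omega) (by omega)) (fun _ _ => rfl) hρ
    fun i => (t, Sum.inl i)
  have h1 : ∀ i : ι, sact (κ := κ) (Equiv.swap t t') (fun _ => 1) (t, Sum.inl i) =
      (t', Sum.inl i) := by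
    intro i
    simp only [sact, Sum.map_inl, id, Equiv.swap_apply_left]
  simp only [h1] at h0
  exact h0.symm

theorem le_typ (hW : StarConf W τ α γ) {t t' l l' : ℕ} (ht : Nat.card ι + 1 ≤ t)
    (ht' : Nat.card ι + 1 ≤ t') {ρ : Fin r → (V ⊕ ℕ × (ι ⊕ ℕ × κ)) ⊕ κ}
    (hρ : ∀ i u, ρ i = Sum.inl u → u ∈ Nam τ) :
    W (sub ρ (le V t l)) = W (sub ρ (le V t' l')) := by
  have h0 := inv_typ hW (σ := Equiv.swap t t')
    (π := fun u => if u < Nat.card ι + 1 then 1 else Equiv.swap l l') (fun u hu =>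
    Equiv.swap_apply_of_ne_of_ne (by omega) (by omega)) (fun _ h => if_pos h) hρ
    fun k => (t, Sum.inr (l, k))
  have h1 : ∀ k : κ, sact (ι := ι) (Equiv.swap t t')
      (fun u => if u < Nat.card ι + 1 then 1 else Equiv.swap l l') (t, Sum.inr (l, k)) =
      (t', Sum.inr (l', k)) := by
    intro k
    have h2 : ¬ t < Nat.card ι + 1 := by omega
    simp only [sact, Sum.map_inr, Equiv.swap_apply_left, if_neg h2]
  simp only [h1] at h0
  exact h0.symm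

theorem like_x (hW : StarConf W τ α γ) {s A : Set (V ⊕ ℕ × (ι ⊕ ℕ × κ))} (hs : s = Nam τ)
    {x : ι → ℕ × (ι ⊕ ℕ × κ)}
    (h : Lk W s A (ce V (Nat.card ι + 1)) fun i => Sum.inr (x i))
    (hf : ∀ i, Nat.card ι + 1 ≤ (x i).1) : LikeX W τ x := by
  subst hs
  refine ⟨fun i j hij => h.inj (by simp only [hij]), hf, fun ρ t ht hρ => ?_⟩
  exact (h.typ ρ hρ).trans (ce_typ hW le_rfl ht hρ)

theorem like_y (hW : StarConf W τ α γ) {s A : Set (V ⊕ ℕ × (ι ⊕ ℕ × κ))} (hs : s = Nam τ)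
    {y : κ → ℕ × (ι ⊕ ℕ × κ)}
    (h : Lk W s A (le V (Nat.card ι + 1) 0) fun i => Sum.inr (y i))
    (hf : ∀ i, Nat.card ι + 1 ≤ (y i).1) : LikeY W τ y := by
  subst hs
  refine ⟨fun i j hij => h.inj (by simp only [hij]), hf, fun ρ t ht hρ => ?_⟩
  exact (h.typ ρ hρ).trans (le_typ hW le_rfl ht hρ)

theorem lk_ce (hW : StarConf W τ α γ) {c : ℕ → Bool} {e : ℕ} (he : E c e) :
    Lk W (Nam τ) (AA τ c) (ce V (Nat.card ι + 1)) (ce V (Nat.card ι + 1 + e)) := by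
  refine ⟨fun i j hij => ?_, fun i => Or.inr ⟨e, he, Or.inl ⟨i, rfl⟩⟩,
    fun i => far_out τ (by simp only []; omega), fun ρ hρ => ce_typ hW (by omega) le_rfl hρ⟩
  exact Sum.inl_injective (Prod.mk.inj (Sum.inr_injective hij)).2

theorem lk_le (hW : StarConf W τ α γ) {c : ℕ → Bool} {e l : ℕ} (he : E c e)
    (hl : l < LL (Nat.card ι) (Nat.card κ) e) :
    Lk W (Nam τ) (AA τ c) (le V (Nat.card ι + 1) 0) (le V (Nat.card ι + 1 + e) l) := by
  refine ⟨fun i j hij => ?_, fun i => Or.inr ⟨e, he, Or.inr ⟨l, i, hl, rfl⟩⟩,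
    fun i => far_out τ (by simp only []; omega), fun ρ hρ => le_typ hW (by omega) le_rfl hρ⟩
  exact (Prod.mk.inj (Sum.inr_injective (Prod.mk.inj (Sum.inr_injective hij)).2)).2

/-- The points of `A c` which are not named. -/
theorem mem_cases {c : ℕ → Bool} {x0 : ι' → V ⊕ ℕ × (ι ⊕ ℕ × κ)}
    {x : ι' → V ⊕ ℕ × (ι ⊕ ℕ × κ)} (h : Lk W (Nam τ) (AA τ c) x0 x) :
    ∃ x' : ι' → ℕ × (ι ⊕ ℕ × κ), (x = fun i => Sum.inr (x' i)) ∧
      ∀ i, ∃ e, E c e ∧ (x' i).1 = Nat.card ι + 1 + e ∧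
        ∀ l k, (x' i).2 = Sum.inr (l, k) → l < LL (Nat.card ι) (Nat.card κ) e := by
  have h1 : ∀ i, ∃ w : ℕ × (ι ⊕ ℕ × κ), x i = Sum.inr w ∧
      ∃ e, E c e ∧ w.1 = Nat.card ι + 1 + e ∧
        ∀ l k, w.2 = Sum.inr (l, k) → l < LL (Nat.card ι) (Nat.card κ) e := by
    intro i
    obtain ⟨e, h2, ⟨j, h3⟩ | ⟨l, k, h4, h3⟩⟩ := (h.mem i).resolve_left (h.out i)
    · refine ⟨_, h3, e, h2, rfl, fun l k h5 => ?_⟩
      simp at h5
    · refine ⟨_, h3, e, h2, rfl, fun l' k' h5 => ?_⟩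
      have h6 := (Prod.mk.inj (Sum.inr_injective h5)).1
      rw [← h6]
      exact h4
  choose w h2 h3 using h1
  exact ⟨w, funext h2, h3⟩

theorem nonempty_x (hW : StarConf W τ α γ) (hab : α ≠ γ) : Nonempty ι := by
  by_contra hne
  rw [not_nonempty_iff] at hne
  refine hab ?_
  rw [← hW.diag 1 0, ← hW.off 0 1 0 (by omega)]
  congr 4
  funext i
  exact hne.elim i

theorem nonempty_y (hW : StarConf W τ α γ) (hab : α ≠ γ) : Nonempty κ := by
  by_contra hne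
  rw [not_nonempty_iff] at hne
  refine hab ?_
  rw [← hW.diag 0 0, ← hW.off 0 1 0 (by omega)]
  congr 4
  funext i
  exact hne.elim i

/-- The number of a leaf. -/
def lf : ι ⊕ ℕ × κ → ℕ := Sum.elim (fun _ => 0) Prod.fst

theorem dg_ce (hW : StarConf W τ α γ) {c : ℕ → Bool} {e : ℕ} (he : E c e) :
    Dg W (Nam τ) (AA τ c) (tm τ) (le V (Nat.card ι + 1) 0) α (LL (Nat.card ι) (Nat.card κ) e)
      (ce V (Nat.card ι + 1 + e)) := by
  refine ⟨fun a => le V (Nat.card ι + 1 + e) a, fun a => ⟨lk_le hW he a.2, ?_⟩,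
    fun a b hab j j' h => ?_⟩
  · rw [← hW.diag (Nat.card ι + 1 + e) a, ← sub_tm]
    rfl
  · have h1 := (Prod.mk.inj (Sum.inr_injective (Prod.mk.inj (Sum.inr_injective h)).2)).1
    exact hab (Fin.ext h1)

/-- One star contains all points of `x` and of a linked tuple which avoids the leaves of `x`. -/
theorem exists_star (hS : S_STB1) (hW : StarConf W τ α γ) (hab : α ≠ γ) [Finite ι] [Finite κ]
    [Nonempty κ] {c : ℕ → Bool} {x : ι → ℕ × (ι ⊕ ℕ × κ)}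
    (hx : Lk W (Nam τ) (AA τ c) (ce V (Nat.card ι + 1)) fun i => Sum.inr (x i))
    (hxf : ∀ i, Nat.card ι + 1 ≤ (x i).1)
    (hd : Dg W (Nam τ) (AA τ c) (tm τ) (le V (Nat.card ι + 1) 0) α
      (Nat.card ι * (Nat.card ι + Nat.card κ) + 1) fun i => Sum.inr (x i)) :
    ∃ (s : ℕ) (l : κ → ℕ) (j : κ → κ), (∀ i, (x i).1 = s) ∧
      (∀ k i j', x i ≠ (s, Sum.inr (l k, j'))) ∧
      Lk W (Nam τ) (AA τ c) (le V (Nat.card ι + 1) 0) (fun k => Sum.inr (s, Sum.inr (l k, j k))) ∧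
      W (sub (tm τ) (Sum.elim (fun i => Sum.inr (x i))
        fun k => Sum.inr (s, Sum.inr (l k, j k)))) = α := by
  obtain ⟨Y, h1, h2⟩ := hd
  -- the bad points
  let bad : ι × (ι ⊕ κ) → V ⊕ ℕ × (ι ⊕ ℕ × κ) := fun u =>
    Sum.inr ((x u.1).1, Sum.map id (fun k => (lf (x u.1).2, k)) u.2)
  have h3 : ∃ a, ∀ k, Y a k ∉ range bad := by
    by_contra hcon
    push Not at hcon
    have h4 := disj_le h2 (finite_range bad) hcon
    have h5 : (range bad).ncard ≤ Nat.card (ι × (ι ⊕ κ)) := by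
      rw [← image_univ]
      refine (ncard_image_le finite_univ).trans ?_
      rw [ncard_univ]
    rw [Nat.card_prod, Nat.card_sum] at h5
    omega
  obtain ⟨a, h3⟩ := h3
  obtain ⟨y, hy1, hy2⟩ := mem_cases (h1 a).1
  have hlk := (h1 a).1
  have hα := (h1 a).2
  rw [hy1] at hlk hα
  have hyf : ∀ k, Nat.card ι + 1 ≤ (y k).1 := by
    intro k
    obtain ⟨e, _, h4, _⟩ := hy2 k
    omega
  have h4 : ∀ k, (∃ i, (x i).1 = (y k).1) → ∃ l j, (y k).2 = Sum.inr (l, j) ∧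
      ∀ i' j', x i' ≠ ((y k).1, Sum.inr (l, j')) := by
    rintro k ⟨i, hi⟩
    have h5 : Y a k = Sum.inr (y k) := congrFun hy1 k
    rcases h6 : (y k).2 with i1 | ⟨l, j⟩
    · exfalso
      refine h3 k ⟨(i, Sum.inl i1), ?_⟩
      rw [h5]
      simp only [bad, Sum.map_inl, id]
      rw [hi, ← h6]
    · refine ⟨l, j, rfl, fun i' j' h7 => h3 k ⟨(i', Sum.inr j), ?_⟩⟩
      rw [h5]
      simp only [bad, Sum.map_inr, h7, lf, Sum.elim_inr]
      rw [← h6]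
  have h5 : ∃ s, (∀ i, (x i).1 = s) ∧ ∀ k, (y k).1 = s := by
    by_contra hcon
    have h6 := hS r K V ι κ W τ α γ hW x y (like_x hW rfl hx hxf) (like_y hW rfl hlk hyf)
      (fun i k hik => h4 k ⟨i, hik⟩) hcon
    rw [← sub_tm, hα] at h6
    exact hab h6
  obtain ⟨s, h6, h7⟩ := h5
  have hne : Nonempty ι := nonempty_x hW hab
  obtain ⟨i0⟩ := hne
  have h8 : ∀ k, ∃ l j, (y k).2 = Sum.inr (l, j) ∧
      ∀ i' j', x i' ≠ ((y k).1, Sum.inr (l, j')) := fun k => h4 k ⟨i0, by rw [h6, h7]⟩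
  choose l j h9 h10 using h8
  have h11 : ∀ k, y k = (s, Sum.inr (l k, j k)) := fun k => Prod.ext (h7 k) (h9 k)
  simp only [h11] at hlk hα
  refine ⟨s, l, j, h6, fun k i j' h => h10 k i j' ?_, hlk, hα⟩
  rw [h7]
  exact h

/-- The upper bound of the degree. -/
theorem dg_hi (hS : S_STB1) (hW : StarConf W τ α γ) (hab : α ≠ γ) [Finite ι] [Finite κ]
    [Nonempty ι] [Nonempty κ] {c : ℕ → Bool} {x : ι → ℕ × (ι ⊕ ℕ × κ)} {e : ℕ}
    (hx : Lk W (Nam τ) (AA τ c) (ce V (Nat.card ι + 1)) fun i => Sum.inr (x i))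
    (hxs : ∀ i, (x i).1 = Nat.card ι + 1 + e) :
    ¬ Dg W (Nam τ) (AA τ c) (tm τ) (le V (Nat.card ι + 1) 0) α
      (Nat.card ι + Nat.card κ * LL (Nat.card ι) (Nat.card κ) e + 1)
      fun i => Sum.inr (x i) := by
  rintro ⟨Y, h1, h2⟩
  have h0 : Nonempty ι := inferInstance
  obtain ⟨i0⟩ := h0
  let B : ι ⊕ (κ × Fin (LL (Nat.card ι) (Nat.card κ) e)) → V ⊕ ℕ × (ι ⊕ ℕ × κ) := fun u =>
    Sum.inr (Nat.card ι + 1 + e, Sum.map id (fun v => ((v.2 : ℕ), v.1)) u)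
  have h3 : ∀ a, ∃ k, Y a k ∈ range B := by
    intro a
    by_contra hcon
    push Not at hcon
    obtain ⟨y, hy1, hy2⟩ := mem_cases (h1 a).1
    have hlk := (h1 a).1
    have hα := (h1 a).2
    rw [hy1] at hlk hα
    have hyf : ∀ k, Nat.card ι + 1 ≤ (y k).1 := by
      intro k
      obtain ⟨e, _, h4, _⟩ := hy2 k
      omega
    have h4 : ∀ k, (y k).1 ≠ Nat.card ι + 1 + e := by
      intro k hk
      refine hcon k ?_
      rw [hy1]
      simp only []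
      obtain ⟨e', _, h5, h6⟩ := hy2 k
      have h7 : e' = e := by omega
      subst h7
      rcases h8 : (y k).2 with i1 | ⟨l, j⟩
      · refine ⟨Sum.inl i1, ?_⟩
        simp only [B, Sum.map_inl, id]
        rw [← h8, ← hk]
      · refine ⟨Sum.inr (j, ⟨l, h6 l j h8⟩), ?_⟩
        simp only [B, Sum.map_inr]
        rw [← h8, ← hk]
    have h5 := hS r K V ι κ W τ α γ hW x y
      (like_x hW rfl hx fun i => by rw [hxs]; omega) (like_y hW rfl hlk hyf)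
      (fun i k hik => absurd (by rw [← hik, hxs]) (h4 k)) (by
        rintro ⟨s, h5, h6⟩
        obtain ⟨k0⟩ := ‹Nonempty κ›
        refine h4 k0 ?_
        rw [h6, ← h5 i0, hxs])
    rw [← sub_tm, hα] at h5
    exact hab h5
  have h4 := disj_le h2 (finite_range B) h3
  have h5 : (range B).ncard ≤ Nat.card (ι ⊕ (κ × Fin (LL (Nat.card ι) (Nat.card κ) e))) := by
    rw [← image_univ]
    refine (ncard_image_le finite_univ).trans ?_
    rw [ncard_univ]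
  rw [Nat.card_sum, Nat.card_prod, Nat.card_fin] at h5
  omega

/-- The lower bound of the degree. -/
theorem dg_lo (hW : StarConf W τ α γ) [Finite ι] [Finite κ] [Nonempty κ] {c : ℕ → Bool}
    {x : ι → ℕ × (ι ⊕ ℕ × κ)} {e : ℕ} (he : E c e)
    (hxs : ∀ i, (x i).1 = Nat.card ι + 1 + e) {l : κ → ℕ} {j : κ → κ}
    (hxl : ∀ k i j', x i ≠ (Nat.card ι + 1 + e, Sum.inr (l k, j')))
    (hlk : Lk W (Nam τ) (AA τ c) (le V (Nat.card ι + 1) 0)
      fun k => Sum.inr (Nat.card ι + 1 + e, Sum.inr (l k, j k)))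
    (hα : W (sub (tm τ) (Sum.elim (fun i => Sum.inr (x i))
      fun k => Sum.inr (Nat.card ι + 1 + e, Sum.inr (l k, j k)))) = α) :
    Dg W (Nam τ) (AA τ c) (tm τ) (le V (Nat.card ι + 1) 0) α (Nn (Nat.card ι) (Nat.card κ) e)
      fun i => Sum.inr (x i) := by
  classical
  let p := Nat.card ι
  let q := Nat.card κ
  -- the forbidden leaves
  have hfin : (range (fun i => lf (x i).2) ∪ range l).Finite :=
    (finite_range _).union (finite_range _)
  have hcard : (range (fun i => lf (x i).2) ∪ range l).ncard ≤ p + q := by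
    refine (ncard_union_le _ _).trans (Nat.add_le_add ?_ ?_)
    · rw [← image_univ]
      refine (ncard_image_le finite_univ).trans ?_
      rw [ncard_univ]
    · rw [← image_univ]
      refine (ncard_image_le finite_univ).trans ?_
      rw [ncard_univ]
  let Fr : Set ℕ := Iio (LL p q e) \ (range (fun i => lf (x i).2) ∪ range l)
  have hFr : q * Nn p q e ≤ Fr.ncard := by
    have h1 := le_ncard_diff (range (fun i => lf (x i).2) ∪ range l) (Iio (LL p q e)) hfin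
    have h2 : (Iio (LL p q e)).ncard = LL p q e := by
      rw [← Nat.card_coe_set_eq, Nat.card_eq_fintype_card]
      simp
    rw [h2] at h1
    have h3 : LL p q e = p + q + q * Nn p q e := rfl
    simp only [Fr]
    omega
  have hFf : Fr.Finite := (finite_Iio _).subset diff_subset
  have : Finite Fr := hFf
  have h1 : Nat.card (κ × Fin (Nn p q e)) ≤ Nat.card Fr := by
    rw [Nat.card_prod, Nat.card_fin, Nat.card_coe_set_eq]
    exact hFr
  have h1' : Nonempty ((κ × Fin (Nn p q e)) ↪ Fr) := by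
    have := Fintype.ofFinite κ
    have := Fintype.ofFinite Fr
    rw [Nat.card_eq_fintype_card, Nat.card_eq_fintype_card] at h1
    exact Function.Embedding.nonempty_of_card_le h1
  obtain ⟨ψ⟩ := h1'
  -- the exchanges
  let kk : range l → κ := fun u => u.2.choose
  have hkk : ∀ u : range l, l (kk u) = u := fun u => u.2.choose_spec
  have hkk' : Injective kk := by
    intro u v huv
    have h2 := hkk u
    rw [huv, hkk v] at h2
    exact Subtype.ext h2.symm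
  have h2 : ∀ a : Fin (Nn p q e), ∃ g : Equiv.Perm ℕ,
      IsSwap g (fun u : range l => (u : ℕ)) fun u => ((ψ (kk u, a) : Fr) : ℕ) := by
    intro a
    refine exists_swap Subtype.val_injective ?_ ?_
    · intro u v huv
      have h3 := ψ.injective (Subtype.ext huv)
      exact hkk' (Prod.mk.inj h3).1
    · intro u v huv
      refine (ψ (kk v, a)).2.2 (Or.inr ?_)
      rw [← huv]
      exact u.2
  choose g hg using h2
  let π : Fin (Nn p q e) → ℕ → Equiv.Perm ℕ := fun a t =>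
    if t = Nat.card ι + 1 + e then g a else 1
  have hπ1 : ∀ a t, t < Nat.card ι + 1 → π a t = 1 := fun a t ht => if_neg (by omega)
  have hgl : ∀ a k, g a (l k) = ψ (kk ⟨l k, k, rfl⟩, a) := fun a k => (hg a).1 ⟨l k, k, rfl⟩
  have hsx : ∀ a i, sact (1 : Equiv.Perm ℕ) (π a) (x i) = x i := by
    intro a i
    have h3 := hxs i
    rcases h4 : x i with ⟨t, i1 | ⟨l1, j1⟩⟩
    · simp only [sact, Sum.map_inl, id, Equiv.Perm.coe_one]
    · rw [h4] at h3
      simp only [] at h3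
      subst h3
      have h5 : g a l1 = l1 := by
        refine (hg a).2.2 l1 ?_ ?_
        · rintro ⟨_, k, rfl⟩ h6
          simp only [] at h6
          refine hxl k i j1 ?_
          rw [h4, h6]
        · intro u h6
          have h6' : l1 = ((ψ (kk u, a) : Fr) : ℕ) := h6
          refine (ψ (kk u, a)).2.2 (Or.inl ⟨i, ?_⟩)
          rw [← h6']
          simp only [h4, lf, Sum.elim_inr]
      have h6 : π a (Nat.card ι + 1 + e) = g a := if_pos rfl
      simp only [sact, Sum.map_inr, Equiv.Perm.coe_one, id, h6, h5]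
  have hsy : ∀ a k, sact (1 : Equiv.Perm ℕ) (π a)
      ((Nat.card ι + 1 + e, Sum.inr (l k, j k)) : ℕ × (ι ⊕ ℕ × κ)) =
      (Nat.card ι + 1 + e, Sum.inr (g a (l k), j k)) := by
    intro a k
    have h6 : π a (Nat.card ι + 1 + e) = g a := if_pos rfl
    simp only [sact, Sum.map_inr, Equiv.Perm.coe_one, id, h6]
  refine ⟨fun a k => Sum.inr (Nat.card ι + 1 + e, Sum.inr (g a (l k), j k)),
    fun a => ⟨⟨?_, ?_, ?_, ?_⟩, ?_⟩, ?_⟩
  · intro k k' hkk''
    have h3 := Prod.mk.inj (Sum.inr_injective (Prod.mk.inj (Sum.inr_injective hkk'')).2)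
    refine hlk.inj ?_
    rw [(g a).injective h3.1, h3.2]
  · intro k
    refine Or.inr ⟨e, he, Or.inr ⟨g a (l k), j k, ?_, rfl⟩⟩
    rw [hgl]
    exact (ψ _).2.1
  · intro k
    exact far_out τ (by simp only []; omega)
  · intro ρ hρ
    have h3 := inv_typ hW (σ := 1) (π := π a) (fun _ _ => rfl) (hπ1 a) hρ
      fun k => ((Nat.card ι + 1 + e, Sum.inr (l k, j k)) : ℕ × (ι ⊕ ℕ × κ))
    simp only [hsy] at h3
    rw [h3]
    exact hlk.typ ρ hρ
  · rw [← hα, ← hW.inv 1 (π a) (sub (tm τ) (Sum.elim (fun i => Sum.inr (x i))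
      fun k => Sum.inr (Nat.card ι + 1 + e, Sum.inr (l k, j k))))]
    congr 1
    funext i
    simp only [sub, tm, comp_apply]
    rcases τ i with v | i1 | k
    · rfl
    · simp only [Sum.map_inr, id, Sum.elim_inr, Sum.elim_inl, hsx]
    · simp only [Sum.map_inr, id, Sum.elim_inr, hsy]
  · intro a b hab' k k' h3
    have h4 := (Prod.mk.inj (Sum.inr_injective (Prod.mk.inj (Sum.inr_injective h3)).2)).1
    rw [hgl, hgl] at h4
    have h5 := ψ.injective (Subtype.ext h4)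
    exact hab' (Prod.mk.inj h5).2

/-- The degree determines the star. -/
theorem dg_both (hS : S_STB1) (hW : StarConf W τ α γ) (hab : α ≠ γ) [Finite ι] [Finite κ]
    [Nonempty ι] [Nonempty κ] {c : ℕ → Bool} {x : ι → V ⊕ ℕ × (ι ⊕ ℕ × κ)}
    (hx : Lk W (Nam τ) (AA τ c) (ce V (Nat.card ι + 1)) x)
    (hd : Dg W (Nam τ) (AA τ c) (tm τ) (le V (Nat.card ι + 1) 0) α
      (Nat.card ι * (Nat.card ι + Nat.card κ) + 1) x) :
    ∃ e, E c e ∧ Dg W (Nam τ) (AA τ c) (tm τ) (le V (Nat.card ι + 1) 0) α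
        (Nn (Nat.card ι) (Nat.card κ) e) x ∧
      ¬ Dg W (Nam τ) (AA τ c) (tm τ) (le V (Nat.card ι + 1) 0) α
        (Nat.card ι + Nat.card κ * LL (Nat.card ι) (Nat.card κ) e + 1) x := by
  obtain ⟨x', rfl, hx'⟩ := mem_cases hx
  have hxf : ∀ i, Nat.card ι + 1 ≤ (x' i).1 := by
    intro i
    obtain ⟨e, _, h4, _⟩ := hx' i
    omega
  obtain ⟨s, l, j, h1, h2, h3, h4⟩ := exists_star hS hW hab hx hxf hd
  have h0 : Nonempty ι := inferInstance
  obtain ⟨i0⟩ := h0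
  obtain ⟨e, he, h5, _⟩ := hx' i0
  have h6 : s = Nat.card ι + 1 + e := by rw [← h1 i0, h5]
  subst h6
  exact ⟨e, he, dg_lo hW he h1 h2 h3 h4, dg_hi hS hW hab hx h1⟩

end Pool.Agent.L7h23.UN.Sb

namespace Pool.Agent.L7h23.UN

open Set Function Pool.Agent.L7h71.UN

theorem s_STB2 (hS : S_STB1) : S_STB2 := by
  intro r K V ι κ _ _ W τ α γ hab hW
  have hx : Nonempty ι := Sb.nonempty_x hW hab
  have hy : Nonempty κ := Sb.nonempty_y hW hab
  have hq : 0 < Nat.card κ := Nat.card_pos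
  have hEk : ∀ (c : ℕ → Bool) (k : ℕ), Sb.E c (2 * k + (c k).toNat) := by
    intro c k
    have h1 := (c k).toNat_le
    have h2 : (2 * k + (c k).toNat) / 2 = k := by omega
    simp only [Sb.E, h2]
    omega
  refine ⟨(Sb.nam_finite τ).toFinset, Sb.AA τ, Sb.clopen_aa τ, fun c => ?_, fun c => ?_, ?_⟩
  · rw [Finite.coe_toFinset]
    exact Sb.nam_sub τ c
  · obtain ⟨i⟩ := hx
    refine infinite_of_injective_forall_mem
      (f := fun k : ℕ => (Sum.inr (Nat.card ι + 1 + (2 * k + (c k).toNat), Sum.inl i) :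
        V ⊕ ℕ × (ι ⊕ ℕ × κ))) ?_ ?_
    · intro a b h
      have h1 := (Prod.mk.inj (Sum.inr_injective h)).1
      have h2 := (c a).toNat_le
      have h3 := (c b).toNat_le
      omega
    · intro k
      exact Or.inr ⟨_, hEk c k, Or.inl ⟨i, rfl⟩⟩
  · intro c d f h1 h2 h3
    have hP : Pres W (Nam τ) (Sb.AA τ c) (Sb.AA τ d) f :=
      ⟨h1, fun w hw => h2 w ((Finite.mem_toFinset _).2 hw), h3⟩
    funext k
    have he := hEk c k
    generalize heq : 2 * k + (c k).toNat = e at he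
    have hL := Sb.lk_ce hW he
    have hx0 : ∀ i, Sb.ce V (ι := ι) (κ := κ) (Nat.card ι + 1 + e) i ∈ Sb.AA τ c := hL.mem
    have h4 := Sb.dg_ce hW he
    have h5 : Sb.Dg W (Nam τ) (Sb.AA τ c) (tm τ) (Sb.le V (Nat.card ι + 1) 0) α
        (Sb.Nn (Nat.card ι) (Nat.card κ) e) (Sb.ce V (Nat.card ι + 1 + e)) :=
      h4.mono (Sb.le_LL hq e)
    have h6 : ¬ Sb.Dg W (Nam τ) (Sb.AA τ c) (tm τ) (Sb.le V (Nat.card ι + 1) 0) α
        (Nat.card ι + Nat.card κ * Sb.LL (Nat.card ι) (Nat.card κ) e + 1)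
        (Sb.ce V (Nat.card ι + 1 + e)) :=
      Sb.dg_hi (x := fun i => (Nat.card ι + 1 + e, Sum.inl i)) hS hW hab hL fun i => rfl
    have h7 := fun n => Sb.dg_iff (n := n) (α := α) (y0 := Sb.le V (Nat.card ι + 1) 0) hP
      (Sb.nam_sub τ c) (Sb.nam_sub τ d) (Sb.tm_mem τ) hx0
    rw [← h7] at h5 h6
    obtain ⟨e', he', h8, h9⟩ := Sb.dg_both hS hW hab (hP.lk (Sb.nam_sub τ c) hL)
      (h5.mono (Sb.lo_le hq e))
    have h10 : e' = e := by
      rcases lt_trichotomy e' e with h | h | h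
      · exact absurd (h5.mono (Sb.hi_lt hq h)) h9
      · exact h
      · exact absurd (h8.mono (Sb.hi_lt hq h)) h6
    subst h10
    have h11 := (c k).toNat_le
    have h12 : e' / 2 = k := by omega
    simp only [Sb.E, h12] at he'
    have h13 : (c k).toNat = (d k).toNat := by omega
    revert h13
    cases c k <;> cases d k <;> simp

end Pool.Agent.L7h23.UN
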