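import Pool.Agent.L7h23.UN.Pres

set_option autoImplicit false

/-!
# Project UN: STPB, decoding of a subset of a linear order
-/

namespace Pool.Agent.L7h23.UN

open Set Function Pool.Agent.L7h71.UN

/-! ### the order -/

/-- The rational numbers with fibres, and two end points. -/
abbrev Lam : Type := WithBot (WithTop (ℚ ×ₗ ℕ))

/-- A point which is not an end point. -/
def mid (q : ℚ) (n : ℕ) : Lam := ((toLex (q, n) : ℚ ×ₗ ℕ) : WithTop (ℚ ×ₗ ℕ))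

theorem mid_inj {q q' : ℚ} {n n' : ℕ} (h : mid q n = mid q' n') : q = q' ∧ n = n' := by
  have h1 : (toLex (q, n) : ℚ ×ₗ ℕ) = toLex (q', n') := WithTop.coe_injective (WithBot.coe_injective h)
  have h2 : (q, n) = (q', n') := toLex.injective h1
  exact ⟨(Prod.mk.inj h2).1, (Prod.mk.inj h2).2⟩

theorem mid_lt {q q' : ℚ} (h : q < q') (n n' : ℕ) : mid q n < mid q' n' := by
  have h1 : (toLex (q, n) : ℚ ×ₗ ℕ) < toLex (q', n') := by
    rw [Prod.Lex.toLex_lt_toLex]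
    exact Or.inl h
  exact WithBot.coe_lt_coe.2 (WithTop.coe_lt_coe.2 h1)

theorem bot_lt_mid (q : ℚ) (n : ℕ) : (⊥ : Lam) < mid q n := WithBot.bot_lt_coe _

theorem mid_lt_top (q : ℚ) (n : ℕ) : mid q n < (⊤ : Lam) := by
  have h1 : ((toLex (q, n) : ℚ ×ₗ ℕ) : WithTop (ℚ ×ₗ ℕ)) < ⊤ := WithTop.coe_lt_top _
  exact WithBot.coe_lt_coe.2 h1

theorem countable_lam : Countable Lam := by
  have h1 : Countable (ℚ ×ₗ ℕ) := inferInstanceAs (Countable (ℚ × ℕ))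
  have h2 : Countable (WithTop (ℚ ×ₗ ℕ)) := inferInstanceAs (Countable (Option (ℚ ×ₗ ℕ)))
  exact inferInstanceAs (Countable (Option (WithTop (ℚ ×ₗ ℕ))))

/-- The number of points over `q`. -/
def G (c : ℕ → Bool) (q : ℚ) : ℕ :=
  if (⌊q⌋₊ : ℚ) = q then 2 * ⌊q⌋₊ + 2 + (c ⌊q⌋₊).toNat else 1

theorem G_pos (c : ℕ → Bool) (q : ℚ) : 0 < G c q := by
  simp only [G]
  split_ifs <;> omega

theorem G_nat (c : ℕ → Bool) (k : ℕ) : G c (k : ℚ) = 2 * k + 2 + (c k).toNat := by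
  simp [G]

theorem G_eq {c d : ℕ → Bool} {k : ℕ} {q : ℚ} (h : G c (k : ℚ) = G d q) : c k = d k := by
  rw [G_nat] at h
  simp only [G] at h
  have h1 := (c k).toNat_le
  have h2 := (d ⌊q⌋₊).toNat_le
  split_ifs at h with h3
  · have h4 : ⌊q⌋₊ = k := by omega
    rw [h4] at h
    have h5 : (c k).toNat = (d k).toNat := by omega
    revert h5
    cases c k <;> cases d k <;> simp
  · omega

/-! ### named points -/

variable {r : ℕ} {K V ι κ ι' : Type}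

/-- A tuple in the block `l`. -/
def cp (V : Type) (l : Lam) (e : ι' → ι ⊕ κ) : ι' → V ⊕ Lam × (ι ⊕ κ) := fun i => Sum.inr (l, e i)

/-- The term `τ`, over the larger set. -/
def tm {X : Type} (τ : Fin r → V ⊕ (ι ⊕ κ)) : Fin r → (V ⊕ X) ⊕ (ι ⊕ κ) :=
  fun i => Sum.map Sum.inl id (τ i)

theorem sub_tm {X : Type} (τ : Fin r → V ⊕ (ι ⊕ κ)) (x : ι → X) (y : κ → X) :
    sub (tm τ) (Sum.elim (fun i => Sum.inr (x i)) fun i => Sum.inr (y i)) =
      Sum.map id (Sum.elim x y) ∘ τ := by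
  funext i
  simp only [sub, tm, comp_apply]
  rcases τ i with u | j | k <;> rfl

/-- The named points. -/
def nm (τ : Fin r → V ⊕ (ι ⊕ κ)) : Set (V ⊕ Lam × (ι ⊕ κ)) :=
  {w | (∃ i v, τ i = Sum.inl v ∧ w = Sum.inl v) ∨ ∃ e, w = Sum.inr (⊥, e) ∨ w = Sum.inr (⊤, e)}

theorem nm_finite [Finite ι] [Finite κ] (τ : Fin r → V ⊕ (ι ⊕ κ)) : (nm τ).Finite := by
  refine ((finite_range fun i : Fin r => Sum.map id (fun e => ((⊥ : Lam), e)) (τ i)).union
    ((finite_range fun e : ι ⊕ κ => (Sum.inr (⊥, e) : V ⊕ Lam × (ι ⊕ κ))).union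
    (finite_range fun e : ι ⊕ κ => (Sum.inr (⊤, e) : V ⊕ Lam × (ι ⊕ κ))))).subset ?_
  rintro w (⟨i, v, h1, rfl⟩ | ⟨e, rfl | rfl⟩)
  · refine Or.inl ⟨i, ?_⟩
    simp only [h1, Sum.map_inl, id]
  · exact Or.inr (Or.inl ⟨e, rfl⟩)
  · exact Or.inr (Or.inr ⟨e, rfl⟩)

theorem tm_mem (τ : Fin r → V ⊕ (ι ⊕ κ)) : ∀ i u, tm τ i = Sum.inl u → u ∈ nm τ := by
  intro i u h
  simp only [tm] at h
  rcases h1 : τ i with v | e
  · rw [h1] at h
    simp only [Sum.map_inl] at h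
    exact Or.inl ⟨i, v, h1, (Sum.inl_injective h).symm⟩
  · rw [h1] at h
    simp at h

/-- The substructures. -/
def AA (τ : Fin r → V ⊕ (ι ⊕ κ)) (c : ℕ → Bool) : Set (V ⊕ Lam × (ι ⊕ κ)) :=
  {w | w ∈ nm τ ∨ ∃ q n e, n < G c q ∧ w = Sum.inr (mid q n, e)}

theorem nm_sub (τ : Fin r → V ⊕ (ι ⊕ κ)) (c : ℕ → Bool) : nm τ ⊆ AA τ c := fun _ h => Or.inl h

theorem cp_bot (τ : Fin r → V ⊕ (ι ⊕ κ)) (e : ι' → ι ⊕ κ) (i : ι') : cp V ⊥ e i ∈ nm τ :=
  Or.inr ⟨e i, Or.inl rfl⟩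

theorem cp_top (τ : Fin r → V ⊕ (ι ⊕ κ)) (e : ι' → ι ⊕ κ) (i : ι') : cp V ⊤ e i ∈ nm τ :=
  Or.inr ⟨e i, Or.inr rfl⟩

theorem cp_out (τ : Fin r → V ⊕ (ι ⊕ κ)) (e : ι' → ι ⊕ κ) (q : ℚ) (n : ℕ) (i : ι') :
    cp V (mid q n) e i ∉ nm τ := by
  rintro (⟨i, v, h1, h2⟩ | ⟨u, h2 | h2⟩)
  · simp [cp] at h2
  · have h3 := (Prod.mk.inj (Sum.inr_injective h2)).1
    exact (bot_lt_mid q n).ne' h3
  · have h3 := (Prod.mk.inj (Sum.inr_injective h2)).1
    exact (mid_lt_top q n).ne h3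

/-! ### the configuration -/

variable {W : St r K (V ⊕ Lam × (ι ⊕ κ))} {τ : Fin r → V ⊕ (ι ⊕ κ)} {α β : K}

theorem inv2 (hW : OrdConf W τ α β) (x : ι → ι ⊕ κ) (y : κ → ι ⊕ κ) {l m l' m' : Lam}
    (h : (l < m ∧ l' < m') ∨ (m < l ∧ m' < l')) :
    W (sub (tm τ) (Sum.elim (cp V l x) (cp V m y))) =
      W (sub (tm τ) (Sum.elim (cp V l' x) (cp V m' y))) := by
  classical
  have hlm : m ≠ l := by
    rcases h with h | h
    · exact h.1.ne'
    · exact h.1.ne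
  let φ : Lam → Lam := fun u => if u = l then l' else m'
  have p1 : φ l = l' := if_pos rfl
  have p2 : φ m = m' := if_neg hlm
  have h1 : StrictMonoOn φ ({l, m} : Set Lam) := by
    rintro u (rfl | rfl) v (rfl | rfl) huv
    · exact absurd huv (lt_irrefl _)
    · rw [p1, p2]
      rcases h with h | h
      · exact h.2
      · exact absurd huv h.1.not_gt
    · rw [p1, p2]
      rcases h with h | h
      · exact absurd huv h.1.not_gt
      · exact h.2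
    · exact absurd huv (lt_irrefl _)
  rw [← hW.inv (sub (tm τ) (Sum.elim (cp V l x) (cp V m y))) φ (h1.mono ?_)]
  · congr 1
    funext i
    simp only [sub, tm, comp_apply]
    rcases τ i with u | j | k
    · rfl
    · simp only [Sum.map_inr, id, Sum.elim_inr, Sum.elim_inl, cp, Prod.map_apply, p1]
    · simp only [Sum.map_inr, id, Sum.elim_inr, cp, Prod.map_apply, p2]
  · rintro u ⟨i, w, h2, rfl⟩
    simp only [sub, tm] at h2
    rcases h3 : τ i with v | j | k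
    · simp [h3] at h2
    · simp only [h3, Sum.map_inr, id, Sum.elim_inr, Sum.elim_inl, cp] at h2
      rw [← Sum.inr_injective h2]
      exact Or.inl rfl
    · simp only [h3, Sum.map_inr, id, Sum.elim_inr, cp] at h2
      rw [← Sum.inr_injective h2]
      exact Or.inr rfl

theorem typ_eq (hW : OrdConf W τ α β) (ρ : Fin r → (V ⊕ Lam × (ι ⊕ κ)) ⊕ ι')
    (hρ : ∀ i u, ρ i = Sum.inl u → u ∈ nm τ) (e : ι' → ι ⊕ κ) (q q' : ℚ) (n n' : ℕ) :
    W (sub ρ (cp V (mid q n) e)) = W (sub ρ (cp V (mid q' n') e)) := by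
  classical
  let φ : Lam → Lam := fun u => if u = mid q n then mid q' n' else u
  have p1 : φ (mid q n) = mid q' n' := if_pos rfl
  have p2 : φ ⊥ = ⊥ := if_neg (bot_lt_mid q n).ne
  have p3 : φ ⊤ = ⊤ := if_neg (mid_lt_top q n).ne'
  have h1 : StrictMonoOn φ ({⊥, ⊤, mid q n} : Set Lam) := by
    rintro u (rfl | rfl | rfl) v (rfl | rfl | rfl) huv
    · exact absurd huv (lt_irrefl _)
    · rw [p2, p3]
      exact huv
    · rw [p2, p1]
      exact bot_lt_mid _ _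
    · exact absurd huv not_lt_bot
    · exact absurd huv (lt_irrefl _)
    · exact absurd huv not_top_lt
    · exact absurd huv not_lt_bot
    · rw [p1, p3]
      exact mid_lt_top _ _
    · exact absurd huv (lt_irrefl _)
  rw [← hW.inv (sub ρ (cp V (mid q n) e)) φ (h1.mono ?_)]
  · congr 1
    funext i
    simp only [sub, comp_apply]
    rcases h3 : ρ i with u | j
    · rcases hρ i u h3 with ⟨i, v, h4, rfl⟩ | ⟨u, rfl | rfl⟩
      · rfl
      · simp only [Sum.elim_inl, id, Sum.map_inr, Prod.map_apply, p2]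
      · simp only [Sum.elim_inl, id, Sum.map_inr, Prod.map_apply, p3]
    · simp only [Sum.elim_inr, cp, Sum.map_inr, Prod.map_apply, p1, id]
  · rintro u ⟨i, w, h2, rfl⟩
    simp only [sub] at h2
    rcases h3 : ρ i with v | j
    · rw [h3] at h2
      simp only [Sum.elim_inl, id] at h2
      rcases hρ i v h3 with ⟨i, v', h4, h5⟩ | ⟨u, h5 | h5⟩
      · rw [h5] at h2
        simp at h2
      · rw [h5] at h2
        rw [← Sum.inr_injective h2]
        exact Or.inl rfl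
      · rw [h5] at h2
        rw [← Sum.inr_injective h2]
        exact Or.inr (Or.inl rfl)
    · simp only [h3, Sum.elim_inr, cp] at h2
      rw [← Sum.inr_injective h2]
      exact Or.inr (Or.inr rfl)

/-- The tuples in a block which are like `e0`. -/
def EE (W : St r K (V ⊕ Lam × (ι ⊕ κ))) (τ : Fin r → V ⊕ (ι ⊕ κ)) (e0 : ι' → ι ⊕ κ) :
    Set (ι' → ι ⊕ κ) :=
  {e | Lk W (nm τ) univ (cp V (mid 0 0) e0) (cp V (mid 0 0) e)}

theorem cp_inj {l : Lam} {e : ι' → ι ⊕ κ} (h : Injective (cp V l e)) : Injective e := by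
  intro i j hij
  refine h ?_
  simp only [cp, hij]

theorem cp_inj' {l : Lam} {e : ι' → ι ⊕ κ} (h : Injective e) : Injective (cp V l e) := by
  intro i j hij
  exact h (Prod.mk.inj (Sum.inr_injective hij)).2

theorem self_mem {e0 : ι' → ι ⊕ κ} (h : Injective e0) : e0 ∈ EE W τ e0 :=
  ⟨cp_inj' h, fun _ => mem_univ _, cp_out τ e0 0 0, fun _ _ => rfl⟩

theorem lk_iff (hW : OrdConf W τ α β) {e0 e : ι' → ι ⊕ κ} {q : ℚ} {n : ℕ} :
    Lk W (nm τ) univ (cp V (mid 0 0) e0) (cp V (mid q n) e) ↔ e ∈ EE W τ e0 := by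
  constructor
  · intro h
    exact ⟨cp_inj' (cp_inj h.inj), fun _ => mem_univ _, cp_out τ e 0 0, fun ρ hρ => by
      rw [typ_eq hW ρ hρ e 0 q 0 n, h.typ ρ hρ]⟩
  · intro h
    exact ⟨cp_inj' (cp_inj h.inj), fun _ => mem_univ _, cp_out τ e q n, fun ρ hρ => by
      rw [typ_eq hW ρ hρ e q 0 n 0, h.typ ρ hρ]⟩

theorem lk_cp (hW : OrdConf W τ α β) {e0 e : ι' → ι ⊕ κ} {q : ℚ} {n : ℕ} {c : ℕ → Bool}
    (h : e ∈ EE W τ e0) (hn : n < G c q) :
    Lk W (nm τ) (AA τ c) (cp V (mid 0 0) e0) (cp V (mid q n) e) := by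
  have h1 := (lk_iff hW (q := q) (n := n)).2 h
  exact ⟨h1.inj, fun i => Or.inr ⟨q, n, e i, hn, rfl⟩, h1.out, h1.typ⟩

theorem Lk.univ {Ω : Type} {N : St r K Ω} {s A : Set Ω} {x0 x : ι' → Ω} (h : Lk N s A x0 x) :
    Lk N s univ x0 x := ⟨h.inj, fun _ => mem_univ _, h.out, h.typ⟩

theorem exists_cp (hW : OrdConf W τ α β) [Nonempty ι'] {e0 : ι' → ι ⊕ κ} {c : ℕ → Bool}
    {x : ι' → V ⊕ Lam × (ι ⊕ κ)} (h : Lk W (nm τ) (AA τ c) (cp V (mid 0 0) e0) x)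
    (h' : ∀ x' : ι' → Lam × (ι ⊕ κ), (x = fun i => Sum.inr (x' i)) →
      (∀ i, ⊥ < (x' i).1 ∧ (x' i).1 < ⊤) → ∀ i j, (x' i).1 = (x' j).1) :
    ∃ q n e, n < G c q ∧ e ∈ EE W τ e0 ∧ x = cp V (mid q n) e := by
  have h1 : ∀ i, ∃ q n e, n < G c q ∧ x i = Sum.inr (mid q n, e) := fun i =>
    (h.mem i).resolve_left (h.out i)
  choose q n e h2 h3 using h1
  obtain ⟨i0⟩ := ‹Nonempty ι'›
  have h4 := h' (fun i => (mid (q i) (n i), e i)) (funext h3)
    (fun i => ⟨bot_lt_mid _ _, mid_lt_top _ _⟩)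
  have h5 : x = cp V (mid (q i0) (n i0)) e := by
    funext i
    rw [h3 i]
    have h6 : mid (q i) (n i) = mid (q i0) (n i0) := h4 i i0
    rw [h6]
    rfl
  refine ⟨q i0, n i0, e, h2 i0, ?_, h5⟩
  rw [← lk_iff hW (q := q i0) (n := n i0), ← h5]
  exact h.univ

theorem val_lt (hW : OrdConf W τ α β) {e : ι → ι ⊕ κ} {u : κ → ι ⊕ κ} (he : e ∈ EE W τ Sum.inl)
    (hu : u ∈ EE W τ Sum.inr) {q p : ℚ} {n j : ℕ} (h : mid q n < mid p j) :
    W (sub (tm τ) (Sum.elim (cp V (mid q n) e) (cp V (mid p j) u))) = α := by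
  rw [inv2 hW e u (Or.inl ⟨h, bot_lt_mid p j⟩),
    ((lk_iff hW (q := p) (n := j)).2 hu).right (tm_mem τ) (cp_bot τ e),
    inv2 hW e Sum.inr (Or.inl ⟨bot_lt_mid 0 0, mid_lt_top q n⟩),
    ((lk_iff hW (q := q) (n := n)).2 he).left (tm_mem τ) (cp_top τ Sum.inr),
    ← hW.low (mid 0 0) ⊤ (mid_lt_top 0 0), ← sub_tm]
  rfl

theorem val_gt (hW : OrdConf W τ α β) {e : ι → ι ⊕ κ} {u : κ → ι ⊕ κ} (he : e ∈ EE W τ Sum.inl)
    (hu : u ∈ EE W τ Sum.inr) {q p : ℚ} {n j : ℕ} (h : mid p j < mid q n) :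
    W (sub (tm τ) (Sum.elim (cp V (mid q n) e) (cp V (mid p j) u))) = β := by
  rw [inv2 hW e u (Or.inr ⟨h, mid_lt_top p j⟩),
    ((lk_iff hW (q := p) (n := j)).2 hu).right (tm_mem τ) (cp_top τ e),
    inv2 hW e Sum.inr (Or.inr ⟨mid_lt_top 0 0, bot_lt_mid q n⟩),
    ((lk_iff hW (q := q) (n := n)).2 he).left (tm_mem τ) (cp_bot τ Sum.inr),
    ← hW.high (mid 0 0) ⊥ (bot_lt_mid 0 0), ← sub_tm]
  rfl

theorem exists_x (hW : OrdConf W τ α β) (hab : α ≠ β) [Nonempty ι] {c : ℕ → Bool}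
    {x : ι → V ⊕ Lam × (ι ⊕ κ)} (h : Lk W (nm τ) (AA τ c) (cp V (mid 0 0) Sum.inl) x) :
    ∃ q n e, n < G c q ∧ e ∈ EE W τ Sum.inl ∧ x = cp V (mid q n) e := by
  refine exists_cp hW h ?_
  intro x' hx' hb i j
  by_contra hij
  refine hab ?_
  have hinj : Injective x' := by
    intro a b hab
    refine h.inj ?_
    rw [hx']
    simp only [hab]
  have h1 := hW.spreadX x' hinj ⟨i, j, hij⟩ ⊥ ⊤ (fun i => (hb i).1) fun i => (hb i).2
  rw [← sub_tm, ← sub_tm, ← hx'] at h1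
  have h2 := h.left (tm_mem τ) (cp_bot τ (Sum.inr : κ → ι ⊕ κ))
  have h3 := h.left (tm_mem τ) (cp_top τ (Sum.inr : κ → ι ⊕ κ))
  have h4 := hW.high (mid 0 0) ⊥ (bot_lt_mid 0 0)
  have h5 := hW.low (mid 0 0) ⊤ (mid_lt_top 0 0)
  rw [← sub_tm] at h4 h5
  rw [← h4, ← h5]
  exact h3.symm.trans (h1.symm.trans h2)

theorem exists_y (hW : OrdConf W τ α β) (hab : α ≠ β) [Nonempty κ] {c : ℕ → Bool}
    {y : κ → V ⊕ Lam × (ι ⊕ κ)} (h : Lk W (nm τ) (AA τ c) (cp V (mid 0 0) Sum.inr) y) :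
    ∃ q n e, n < G c q ∧ e ∈ EE W τ Sum.inr ∧ y = cp V (mid q n) e := by
  refine exists_cp hW h ?_
  intro x' hx' hb i j
  by_contra hij
  refine hab ?_
  have hinj : Injective x' := by
    intro a b hab
    refine h.inj ?_
    rw [hx']
    simp only [hab]
  have h1 := hW.spreadY x' hinj ⟨i, j, hij⟩ ⊥ ⊤ (fun i => (hb i).1) fun i => (hb i).2
  rw [← sub_tm, ← sub_tm, ← hx'] at h1
  have h2 := h.right (tm_mem τ) (cp_bot τ (Sum.inl : ι → ι ⊕ κ))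
  have h3 := h.right (tm_mem τ) (cp_top τ (Sum.inl : ι → ι ⊕ κ))
  have h4 := hW.high ⊤ (mid 0 0) (mid_lt_top 0 0)
  have h5 := hW.low ⊥ (mid 0 0) (bot_lt_mid 0 0)
  rw [← sub_tm] at h4 h5
  rw [← h4, ← h5]
  exact h2.symm.trans (h1.trans h3)

theorem nonempty_x (hW : OrdConf W τ α β) (hab : α ≠ β) : Nonempty ι := by
  by_contra hne
  rw [not_nonempty_iff] at hne
  refine hab ?_
  rw [← hW.low ⊥ (mid 0 0) (bot_lt_mid 0 0), ← hW.high ⊤ (mid 0 0) (mid_lt_top 0 0)]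
  congr 4
  funext i
  exact hne.elim i

theorem nonempty_y (hW : OrdConf W τ α β) (hab : α ≠ β) : Nonempty κ := by
  by_contra hne
  rw [not_nonempty_iff] at hne
  refine hab ?_
  rw [← hW.low (mid 0 0) ⊤ (mid_lt_top 0 0), ← hW.high (mid 0 0) ⊥ (bot_lt_mid 0 0)]
  congr 4
  funext i
  exact hne.elim i

theorem symm_inf (hW : OrdConf W τ α β) (hab : α ≠ β) [Nonempty κ] {c : ℕ → Bool} {q q' : ℚ}
    {n n' : ℕ} {e e' : ι → ι ⊕ κ} (he : e ∈ EE W τ Sum.inl) (he' : e' ∈ EE W τ Sum.inl)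
    (h : q < q') :
    ¬ (symmDiff (Dl W (nm τ) (AA τ c) (tm τ) (cp V (mid 0 0) Sum.inr) β (cp V (mid q n) e))
      (Dl W (nm τ) (AA τ c) (tm τ) (cp V (mid 0 0) Sum.inr) β (cp V (mid q' n') e'))).Finite := by
  intro hfin
  have hy : (Sum.inr : κ → ι ⊕ κ) ∈ EE W τ Sum.inr := self_mem Sum.inr_injective
  have h1 : (fun p : ℚ => cp V (mid p 0) (Sum.inr : κ → ι ⊕ κ)) '' Ioo q q' ⊆
      symmDiff (Dl W (nm τ) (AA τ c) (tm τ) (cp V (mid 0 0) Sum.inr) β (cp V (mid q n) e))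
      (Dl W (nm τ) (AA τ c) (tm τ) (cp V (mid 0 0) Sum.inr) β (cp V (mid q' n') e')) := by
    rintro _ ⟨p, hp, rfl⟩
    rw [mem_symmDiff]
    right
    refine ⟨⟨lk_cp hW hy (G_pos c p), ?_⟩, fun h3 => ?_⟩
    · exact val_gt hW he' hy (mid_lt hp.2 _ _)
    · have h4 := h3.2
      simp only [] at h4
      rw [val_lt hW he hy (mid_lt hp.1 _ _)] at h4
      exact hab h4
  have h2 := (hfin.subset h1).of_finite_image (s := Ioo q q') ?_
  · exact (Ioo_infinite h) h2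
  · intro a _ b _ hab'
    obtain ⟨k⟩ := ‹Nonempty κ›
    have h3 := congrFun hab' k
    exact (mid_inj (Prod.mk.inj (Sum.inr_injective h3)).1).1

theorem cls_eq (hW : OrdConf W τ α β) (hab : α ≠ β) [Nonempty ι] [Nonempty κ] [Finite ι]
    [Finite κ] {c : ℕ → Bool} {q : ℚ} {n : ℕ} {e : ι → ι ⊕ κ} (he : e ∈ EE W τ Sum.inl) :
    Cls W (nm τ) (AA τ c) (tm τ) (cp V (mid 0 0) Sum.inl) (cp V (mid 0 0) Sum.inr) β
      (cp V (mid q n) e) =
      (fun p : ℕ × (ι → ι ⊕ κ) => cp V (mid q p.1) p.2) '' (Iio (G c q) ×ˢ EE W τ Sum.inl) := by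
  apply Subset.antisymm
  · rintro x' ⟨h1, h2⟩
    obtain ⟨q', n', e', h3, h4, rfl⟩ := exists_x hW hab h1
    rcases lt_trichotomy q q' with h5 | h5 | h5
    · exact absurd h2 (symm_inf hW hab he h4 h5)
    · subst h5
      exact ⟨(n', e'), ⟨h3, h4⟩, rfl⟩
    · rw [symmDiff_comm] at h2
      exact absurd h2 (symm_inf hW hab h4 he h5)
  · rintro _ ⟨⟨n', e'⟩, ⟨h3, h4⟩, rfl⟩
    have h3' : n' < G c q := h3
    have h4' : e' ∈ EE W τ Sum.inl := h4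
    refine ⟨lk_cp hW h4' h3', ?_⟩
    have hf : ((Iio (G c q)) ×ˢ (univ : Set (κ → ι ⊕ κ))).Finite :=
      (finite_Iio _).prod finite_univ
    refine (hf.image fun p => cp V (mid q p.1) p.2).subset ?_
    have key : ∀ (y : κ → V ⊕ Lam × (ι ⊕ κ)) (a a' : ℕ) (u u' : ι → ι ⊕ κ),
        u ∈ EE W τ Sum.inl → u' ∈ EE W τ Sum.inl →
        y ∈ Dl W (nm τ) (AA τ c) (tm τ) (cp V (mid 0 0) Sum.inr) β (cp V (mid q a) u) →
        y ∉ Dl W (nm τ) (AA τ c) (tm τ) (cp V (mid 0 0) Sum.inr) β (cp V (mid q a') u') →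
        y ∈ (fun p : ℕ × (κ → ι ⊕ κ) => cp V (mid q p.1) p.2) ''
          ((Iio (G c q)) ×ˢ (univ : Set (κ → ι ⊕ κ))) := by
      intro y a a' u u' hu hu' hy hy'
      obtain ⟨p, j, v, h5, h6, rfl⟩ := exists_y hW hab hy.1
      rcases lt_trichotomy p q with h7 | h7 | h7
      · exact absurd ⟨hy.1, val_gt hW hu' h6 (mid_lt h7 _ _)⟩ hy'
      · subst h7
        exact ⟨(j, v), ⟨h5, mem_univ _⟩, rfl⟩
      · have h8 := hy.2
        rw [val_lt hW hu h6 (mid_lt h7 _ _)] at h8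
        exact absurd h8 hab
    intro y hy
    rw [mem_symmDiff] at hy
    rcases hy with ⟨hy, hy'⟩ | ⟨hy, hy'⟩
    · exact key y _ _ _ _ he h4' hy hy'
    · exact key y _ _ _ _ h4' he hy hy'

theorem ncard_cls (hW : OrdConf W τ α β) (hab : α ≠ β) [Nonempty ι] [Nonempty κ] [Finite ι]
    [Finite κ] {c : ℕ → Bool} {q : ℚ} {n : ℕ} {e : ι → ι ⊕ κ} (he : e ∈ EE W τ Sum.inl) :
    (Cls W (nm τ) (AA τ c) (tm τ) (cp V (mid 0 0) Sum.inl) (cp V (mid 0 0) Sum.inr) β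
      (cp V (mid q n) e)).ncard = G c q * (EE W τ Sum.inl).ncard := by
  rw [cls_eq hW hab he, ncard_image_of_injective, ncard_prod]
  · congr 1
    rw [← Nat.card_coe_set_eq, Nat.card_eq_fintype_card]
    simp
  · rintro ⟨a, u⟩ ⟨b, v⟩ h
    obtain ⟨i0⟩ := ‹Nonempty ι›
    have h1 : ∀ i, mid q a = mid q b ∧ u i = v i := fun i => by
      have h2 := congrFun h i
      exact ⟨(Prod.mk.inj (Sum.inr_injective h2)).1, (Prod.mk.inj (Sum.inr_injective h2)).2⟩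
    exact Prod.ext (mid_inj (h1 i0).1).2 (funext fun i => (h1 i).2)

theorem clopen_aa (w : V ⊕ Lam × (ι ⊕ κ)) : IsClopen {c | w ∈ AA τ c} := by
  have key : ∀ (k : ℕ) (Q : Bool → Prop), (∀ c, w ∈ AA τ c ↔ Q (c k)) →
      IsClopen {c | w ∈ AA τ c} := by
    intro k Q h
    have h1 : {c | w ∈ AA τ c} = (fun c : ℕ → Bool => c k) ⁻¹' {b | Q b} := by
      ext c
      exact h c
    rw [h1]
    exact (isClopen_discrete _).preimage (continuous_apply k)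
  by_cases hw : ∃ q n e, w = Sum.inr (mid q n, e)
  · obtain ⟨q, n, e, rfl⟩ := hw
    refine key ⌊q⌋₊ (fun b => Sum.inr (mid q n, e) ∈ nm τ ∨ n < G (fun _ => b) q) fun c => ?_
    have h1 : G (fun _ => c ⌊q⌋₊) q = G c q := rfl
    rw [h1]
    constructor
    · rintro (h | ⟨q', n', e', h2, h3⟩)
      · exact Or.inl h
      · obtain ⟨rfl, rfl⟩ := mid_inj (Prod.mk.inj (Sum.inr_injective h3)).1
        exact Or.inr h2
    · rintro (h | h)
      · exact Or.inl h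
      · exact Or.inr ⟨q, n, e, h, rfl⟩
  · refine key 0 (fun _ => w ∈ nm τ) fun c => ⟨?_, Or.inl⟩
    rintro (h | ⟨q', n', e', h2, h3⟩)
    · exact h
    · exact absurd ⟨q', n', e', h3⟩ hw

theorem s_STPB : S_STPB := by
  intro r K V ι κ _ _ τ α β hab
  refine ⟨Lam, inferInstance, countable_lam, fun W hW => ?_⟩
  have hx : Nonempty ι := nonempty_x hW hab
  have hy : Nonempty κ := nonempty_y hW hab
  refine ⟨(nm_finite τ).toFinset, AA τ, clopen_aa, fun c => ?_, fun c => ?_, ?_⟩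
  · rw [Finite.coe_toFinset]
    exact nm_sub τ c
  · obtain ⟨i⟩ := hx
    refine infinite_of_injective_forall_mem
      (f := fun q : ℚ => (Sum.inr (mid q 0, Sum.inl i) : V ⊕ Lam × (ι ⊕ κ))) ?_ ?_
    · intro a b h
      exact (mid_inj (Prod.mk.inj (Sum.inr_injective h)).1).1
    · intro q
      exact Or.inr ⟨q, 0, Sum.inl i, G_pos c q, rfl⟩
  · intro c d f h1 h2 h3
    have hP : Pres W (nm τ) (AA τ c) (AA τ d) f :=
      ⟨h1, fun w hw => h2 w ((Finite.mem_toFinset _).2 hw), h3⟩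
    have he : (Sum.inl : ι → ι ⊕ κ) ∈ EE W τ Sum.inl := self_mem Sum.inl_injective
    have hpos : 0 < (EE W τ (Sum.inl : ι → ι ⊕ κ)).ncard :=
      (ncard_pos (toFinite _)).2 ⟨_, he⟩
    funext k
    have hL := lk_cp hW (c := c) he (G_pos c (k : ℚ))
    have h4 := hP.ncard_cls (nm_sub τ c) (nm_sub τ d) (tm_mem τ) (β := β)
      (x0 := cp V (mid 0 0) Sum.inl) (y0 := cp V (mid 0 0) Sum.inr) hL.mem
    obtain ⟨q, n, e, h5, h6, h7⟩ := exists_x hW hab (hP.lk (nm_sub τ c) hL)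
    rw [ncard_cls hW hab he, h7, ncard_cls hW hab h6] at h4
    exact G_eq (Nat.eq_of_mul_eq_mul_right hpos h4.symm)

end Pool.Agent.L7h23.UN
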